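import Pool.Agent.H10.T2.Defs

/-!
# Alperin–McKay, reduction to almost simple groups: targets, part 1
(idempotents, character triples, lifts, the subgroup `G[β]`, the theorem of Knörr)
-/

open scoped Classical ComplexConjugate

namespace AMt

open AMc AMe

/-! ## S. Idempotents, triples, lifts -/

/-- VM: calculus of the spaces `VS` -/
def T_VM : Prop := ∀ (R : Type) [CommRing R] (Γ : Type) [Group Γ] [Fintype Γ] (K : Subgroup Γ),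
  (∀ g h : Γ, Nm g K → Nm h K → ∀ z ∈ VS R K g, ∀ w ∈ VS R K h, z * w ∈ VS R K (g * h) ∧
    z * w = cn g w * z) ∧
  (∀ g : Γ, ∀ z ∈ VS R K g, ∀ w ∈ VS R K g, z + w ∈ VS R K g ∧ ∀ c : R, c • z ∈ VS R K g) ∧
  (∀ g : Γ, Nm g K → ∀ z ∈ VS R K g, (∀ n : ℕ, z ^ n ∈ VS R K (g ^ n)) ∧
    (∀ c : MonoidAlgebra R Γ, (∀ x, x ∉ K → c.coeff x = 0) → c * z = z * c) ∧
    ∀ k ∈ K, z ∈ VS R K (g * k) ∧ z ∈ VS R K (k * g)) ∧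
  (∀ g u : Γ, Nm g K → Nm u K → ∀ z ∈ VS R K g, cn u z ∈ VS R K (u * g * u⁻¹)) ∧
  (VS R K 1 = (ZA R K K : Set (MonoidAlgebra R Γ))) ∧
  (∀ u v : Γ, ∀ z w : MonoidAlgebra R Γ, cn u (z * w) = cn u z * cn u w ∧
    cn u (z + w) = cn u z + cn u w ∧ cn u (cn v z) = cn (u * v) z ∧ cn 1 z = z ∧
    cn u (1 : MonoidAlgebra R Γ) = 1 ∧ ∀ x, (cn u z).coeff x = z.coeff (u⁻¹ * x * u)) ∧
  (∀ G : Subgroup Γ, NIn K G → ∀ z ∈ ZA R G G, (∀ g, cst K g z ∈ VS R K g) ∧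
    (∀ u ∈ G, ∀ g, cn u (cst K g z) = cst K (u * g * u⁻¹) z) ∧
    ∀ T : Finset Γ, Tv T K G → z = ∑ g ∈ T, cst K g z) ∧
  (∀ G : Subgroup Γ, ∀ z : MonoidAlgebra R Γ, z ∈ ZA R G K → NIn K G →
    (∀ g, cst K g z ∈ VS R K g) ∧ ∀ T : Finset Γ, Tv T K G → z = ∑ g ∈ T, cst K g z) ∧
  (∀ G : Subgroup Γ, K ≤ G → ∃ T : Finset Γ, Tv T K G ∧ T.card = K.relIndex G)

/-- ZE: the central idempotents, first part -/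
def T_ZE : Prop := ∀ (Γ : Type) [Group Γ] [Fintype Γ] (K : Subgroup Γ),
  (∀ θ ∈ IrrS K, ei K θ ∈ ZA ℂ K K ∧ ei K θ ≠ 0) ∧
  (∀ θ ∈ IrrS K, ∀ v ∈ ZA ℂ K K, v * ei K θ = (ev θ v / θ 1) • ei K θ) ∧
  (∀ θ ∈ IrrS K, ∀ θ' ∈ IrrS K, ei K θ * ei K θ' = if θ = θ' then ei K θ else 0) ∧
  (∀ z : MonoidAlgebra ℂ Γ, (∀ x, x ∉ K → z.coeff x = 0) → (∀ θ ∈ IrrS K, z * ei K θ = 0) →
    z = 0) ∧
  (∀ (u : Γ) (θ : Γ → ℂ), cn u (ei K θ) = ei K (cj u⁻¹ θ))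

/-- ZF: the central idempotents, second part -/
def T_ZF : Prop := ∀ (Γ : Type) [Group Γ] [Fintype Γ] (K U : Subgroup Γ), NIn K U →
  ∀ χ ∈ IrrS U,
  (∀ z w : MonoidAlgebra ℂ Γ, (∀ x, x ∉ U → z.coeff x = 0) → (∀ x, x ∉ U → w.coeff x = 0) →
    ev χ (z * w) = ev χ (w * z)) ∧
  (∀ z : MonoidAlgebra ℂ Γ, (∀ x, x ∉ U → z.coeff x = 0) → ev χ (z * ei U χ) = ev χ z ∧
    (∀ χ' ∈ IrrS U, χ' ≠ χ → ev χ (z * ei U χ') = 0) ∧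
    ∀ c ∈ ZA ℂ U U, ev χ (c * z) = ev χ c / χ 1 * ev χ z) ∧
  (∀ θ ∈ IrrS K, (Over χ θ ↔ ei K θ * ei U χ ≠ 0) ∧
    ((∀ u ∈ U, cj u θ = θ) → Over χ θ → ei K θ * ei U χ = ei U χ))

/-- SC: Schur relations -/
def T_SC : Prop := ∀ (G : Type) [Group G] [Fintype G], ∀ χ ∈ Irr G, ∀ χ' ∈ Irr G, ∀ x y : G,
  (∑ a : G, χ (x * a⁻¹) * χ' (a * y) =
    if χ = χ' then (Nat.card G : ℂ) / χ 1 * χ (x * y) else 0) ∧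
  ∑ a : G, χ (a * x * a⁻¹ * y) = (Nat.card G : ℂ) / χ 1 * χ x * χ y

/-- TG: existence of triples -/
def T_TG : Prop := ∀ (Γ : Type) [Group Γ] [Fintype Γ] (K U : Subgroup Γ), NIn K U →
  ∀ θ ∈ IrrS K, (∀ u ∈ U, cj u θ = θ) →
  ∃ (H : Type) (_ : Group H) (_ : Fintype H) (p : H →* Γ) (i : K →* H) (τ : H → ℂ),
    Trp K U θ p i τ ∧
    ∃ j : (U ⊓ Subgroup.centralizer (K : Set Γ) : Subgroup Γ) →* H,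
      (∀ c, p (j c) = c) ∧ (∀ c a, τ (j c * a) = τ a) ∧
      ∀ (a : H) (c c' : (U ⊓ Subgroup.centralizer (K : Set Γ) : Subgroup Γ)),
        (c' : Γ) = p a * c * (p a)⁻¹ → j c' = a * j c * a⁻¹

/-- SR: the elements `sm a` -/
def T_SR : Prop := ∀ (Γ : Type) [Group Γ] [Fintype Γ] (K U : Subgroup Γ) (θ : Γ → ℂ)
  (H : Type) [Group H] [Fintype H] (p : H →* Γ) (i : K →* H) (τ : H → ℂ), Trp K U θ p i τ →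
  (∀ a, sm K θ p i τ a ∈ VS ℂ K (p a) ∧ sm K θ p i τ a ≠ 0) ∧
  (∀ a b, sm K θ p i τ (a * b) = sm K θ p i τ a * sm K θ p i τ b) ∧
  (∀ k, sm K θ p i τ (i k) = ei K θ) ∧
  (∀ a b, cn (p a) (sm K θ p i τ b) = sm K θ p i τ (a * b * a⁻¹)) ∧
  (∀ z, p z = 1 → ∀ a, sm K θ p i τ (z * a) = conj (τ z / τ 1) • sm K θ p i τ a)

/-- SD: the spaces `SS` are lines -/
def T_SD : Prop :=
  (∀ (Γ : Type) [Group Γ] [Fintype Γ] (K U : Subgroup Γ) (θ : Γ → ℂ)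
    (H : Type) [Group H] [Fintype H] (p : H →* Γ) (i : K →* H) (τ : H → ℂ), Trp K U θ p i τ →
    ∀ a, ∀ w ∈ VS ℂ K (p a), ∃ c : ℂ, w * ei K θ = c • sm K θ p i τ a) ∧
  (∀ (Γ : Type) [Group Γ] [Fintype Γ] (K : Subgroup Γ), ∀ θ ∈ IrrS K, ∀ g : Γ, Nm g K →
    cj g θ ≠ θ → ∀ w ∈ VS ℂ K g, w * ei K θ = 0) ∧
  (∀ (Γ : Type) [Group Γ] [Fintype Γ] (K : Subgroup Γ), ∀ θ ∈ IrrS K, ∀ g : Γ, Nm g K →
    cj g θ = θ → ∃ s ∈ SS K θ g, s ≠ 0 ∧ (∀ w ∈ SS K θ g, ∃ c : ℂ, w = c • s) ∧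
      ∃ s' ∈ SS K θ g⁻¹, s * s' = ei K θ ∧ s' * s = ei K θ)

/-- LF: lifts of elements of the modular group algebra -/
def T_LF : Prop := ∀ (F : Type) [Field F] (π : integralClosure ℤ ℂ →+* F),
  Function.Surjective π → ∀ (Γ : Type) [Group Γ] [Fintype Γ],
  (∀ (z' w' : MonoidAlgebra ℂ Γ) (z w : MonoidAlgebra F Γ), Lf π z' z → Lf π w' w →
    Lf π (z' + w') (z + w) ∧ Lf π (z' * w') (z * w) ∧ Lf π (-z') (-z) ∧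
    (∀ n : ℕ, Lf π (z' ^ n) (z ^ n)) ∧ (∀ u, Lf π (cn u z') (cn u z)) ∧
    (∀ (K : Subgroup Γ) (g : Γ), Lf π (cst K g z') (cst K g z)) ∧
    (∀ c : ℂ, IsIntegral ℤ c → Lf π (c • z') (rd π c • z))) ∧
  (∀ (T : Finset Γ) (z' : Γ → MonoidAlgebra ℂ Γ) (z : Γ → MonoidAlgebra F Γ),
    (∀ v ∈ T, Lf π (z' v) (z v)) → Lf π (∑ v ∈ T, z' v) (∑ v ∈ T, z v)) ∧
  (Lf π (1 : MonoidAlgebra ℂ Γ) 1 ∧ Lf π (0 : MonoidAlgebra ℂ Γ) 0) ∧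
  (∀ (K : Subgroup Γ) (g : Γ), ∀ z ∈ VS F K g, ∃ z' ∈ VS ℂ K g, Lf π z' z) ∧
  (∀ (N U : Subgroup Γ), ∀ z ∈ ZA F N U, ∃ z' ∈ ZA ℂ N U, Lf π z' z) ∧
  (∀ (N : Subgroup Γ), ∀ χ ∈ IrrS N, ∀ z ∈ ZA F N N, ∀ z' ∈ ZA ℂ N N, Lf π z' z →
    IsIntegral ℤ (ev χ z' / χ 1) ∧ lam π χ z = rd π (ev χ z' / χ 1)) ∧
  (∀ (N : Subgroup Γ), ∀ χ ∈ IrrS N, ∀ (z' : MonoidAlgebra ℂ Γ) (z : MonoidAlgebra F Γ),
    Lf π z' z → IsIntegral ℤ (ev χ z')) ∧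
  (∀ a b : ℂ, IsIntegral ℤ a → IsIntegral ℤ b → rd π (a + b) = rd π a + rd π b ∧
    rd π (a * b) = rd π a * rd π b ∧ rd π (-a) = -rd π a ∧ rd π 1 = 1 ∧ rd π 0 = 0 ∧
    ∀ n : ℕ, rd π (n : ℂ) = (n : F))

/-- FZ: the scalars `f` in `z' * ei K θ = f • sm a` -/
def T_FZ : Prop := ∀ (F : Type) [Field F] (π : integralClosure ℤ ℂ →+* F),
  Function.Surjective π → ∀ (ℓ : ℕ) [Fact ℓ.Prime] [CharP F ℓ]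
  (Γ : Type) [Group Γ] [Fintype Γ] (K U : Subgroup Γ) (θ : Γ → ℂ)
  (H : Type) [Group H] [Fintype H] (p : H →* Γ) (i : K →* H) (τ : H → ℂ), Trp K U θ p i τ →
  ∀ (a : H) (z : MonoidAlgebra F Γ), z ∈ VS F K (p a) → ∀ z' ∈ VS ℂ K (p a), Lf π z' z →
  ∀ f : ℂ, z' * ei K θ = f • sm K θ p i τ a →
    IsIntegral ℤ f ∧ (rd π f ≠ 0 ↔ lam π θ (z ^ Fintype.card Γ) ≠ 0) ∧
    ∀ z'' ∈ VS ℂ K (p a), Lf π z'' z → ∀ f' : ℂ, z'' * ei K θ = f' • sm K θ p i τ a →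
      rd π f' = rd π f

/-- GA: the theorem of Gallagher for triples -/
def T_GA : Prop := ∀ (Γ : Type) [Group Γ] [Fintype Γ] (K U : Subgroup Γ) (θ : Γ → ℂ)
  (H : Type) [Group H] [Fintype H] (p : H →* Γ) (i : K →* H) (τ : H → ℂ), Trp K U θ p i τ →
  ∀ V : Subgroup Γ, K ≤ V → V ≤ U →
  (∀ ψ ∈ IrrS V, Over ψ θ → ∃ η ∈ IrrS (V.comap p), (∀ a k, η (a * i k) = η a) ∧
    (∀ a ∈ V.comap p, ψ (p a) = τ a * η a ∧ ev ψ (sm K θ p i τ a) = θ 1 * η a) ∧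
    ψ 1 = θ 1 * η 1 ∧ (∀ z, p z = 1 → ∀ a, η (z * a) * τ z = η a * τ 1)) ∧
  (∀ η ∈ IrrS (V.comap p), (∀ a k, η (a * i k) = η a) →
    (∀ z, p z = 1 → η z * τ z = η 1 * τ 1) →
    ∃ ψ ∈ IrrS V, Over ψ θ ∧ ∀ a ∈ V.comap p, ψ (p a) = τ a * η a) ∧
  (∀ η η' : H → ℂ, (∀ a k, η (a * i k) = η a) → (∀ a k, η' (a * i k) = η' a) →
    (∀ a, τ a * η a = τ a * η' a) → η = η')

/-- SV: Schur relations over representatives of `V / K` -/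
def T_SV : Prop := ∀ (Γ : Type) [Group Γ] [Fintype Γ] (K U : Subgroup Γ) (θ : Γ → ℂ)
  (H : Type) [Group H] [Fintype H] (p : H →* Γ) (i : K →* H) (τ : H → ℂ), Trp K U θ p i τ →
  ∀ V : Subgroup Γ, K ≤ V → V ≤ U → ∀ R : Finset Γ, Tv R K V → ∀ a : Γ → H,
  (∀ v ∈ R, p (a v) = v) → ∀ η ∈ IrrS (V.comap p), ∀ η' ∈ IrrS (V.comap p),
  (∀ b k, η (b * i k) = η b) → (∀ b k, η' (b * i k) = η' b) →
  (∀ z, p z = 1 → ∀ b, η (z * b) * τ z = η b * τ 1) →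
  (∀ z, p z = 1 → ∀ b, η' (z * b) * τ z = η' b * τ 1) →
  ∀ x ∈ V.comap p, ∀ y ∈ V.comap p,
  (∑ v ∈ R, η (x * (a v)⁻¹) * η' (a v * y) =
    if η = η' then (K.relIndex V : ℂ) / η 1 * η (x * y) else 0) ∧
  ∑ v ∈ R, η (a v * x * (a v)⁻¹ * y) = (K.relIndex V : ℂ) / η 1 * (η x * η y)

/-- TW: expansion of `K`-invariant elements in the `θ`-component -/
def T_TW : Prop := ∀ (Γ : Type) [Group Γ] [Fintype Γ] (K U : Subgroup Γ) (θ : Γ → ℂ)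
  (H : Type) [Group H] [Fintype H] (p : H →* Γ) (i : K →* H) (τ : H → ℂ), Trp K U θ p i τ →
  ∀ V : Subgroup Γ, K ≤ V → V ≤ U → ∀ R : Finset Γ, Tv R K V → ∀ a : Γ → H,
  (∀ v ∈ R, p (a v) = v) → ∀ z' ∈ ZA ℂ V K, ∃ g : Γ → ℂ,
  (∀ v ∈ R, cst K v z' * ei K θ = g v • sm K θ p i τ (a v)) ∧
  z' * ei K θ = ∑ v ∈ R, g v • sm K θ p i τ (a v) ∧
  ((∀ x, IsIntegral ℤ (z'.coeff x)) → ∀ v ∈ R, IsIntegral ℤ (g v)) ∧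
  ∀ χ ∈ IrrS V, Over χ θ → ∀ η ∈ IrrS (V.comap p), (∀ b k, η (b * i k) = η b) →
    (∀ b ∈ V.comap p, χ (p b) = τ b * η b) → ev χ z' = θ 1 * ∑ v ∈ R, g v * η (a v)

/-- CC: the Clifford correspondence -/
def T_CC : Prop := ∀ (Γ : Type) [Group Γ] [Fintype Γ] (K U : Subgroup Γ), NIn K U →
  ∀ θ ∈ IrrS K,
  (∀ χ ∈ IrrS U, Over χ θ → ∃ ψ ∈ IrrS (stab U θ), Over ψ θ ∧ Over χ ψ ∧
    ei K θ * ei U χ = ei (stab U θ) ψ ∧ χ 1 = ((stab U θ).relIndex U : ℂ) * ψ 1 ∧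
    (∀ ψ' ∈ IrrS (stab U θ), Over ψ' θ → Over χ ψ' → ψ' = ψ) ∧
    ∀ z ∈ ZA ℂ U U, ev χ z / χ 1 = ev ψ (cst (stab U θ) 1 z) / ψ 1) ∧
  (∀ ψ ∈ IrrS (stab U θ), Over ψ θ → ∃ χ ∈ IrrS U, Over χ ψ ∧ Over χ θ ∧
    ∀ χ' ∈ IrrS U, Over χ' ψ → χ' = χ)

/-- DD: the degree of a character above divides -/
def T_DD : Prop := ∀ (Γ : Type) [Group Γ] [Fintype Γ] (K U : Subgroup Γ), NIn K U →
  ∀ χ ∈ IrrS U, ∀ θ ∈ IrrS K, Over χ θ → ∃ m : ℕ, 0 < m ∧ χ 1 = m * θ 1 ∧ m ∣ K.relIndex U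

/-! ## N. Nilpotency and the theorem of Knörr -/

/-- NK: central elements without unit components act as zero -/
def T_NK : Prop := ∀ (F : Type) [Field F] (π : integralClosure ℤ ℂ →+* F),
  Function.Surjective π → ∀ (ℓ : ℕ) [Fact ℓ.Prime] [CharP F ℓ]
  (Γ : Type) [Group Γ] [Fintype Γ] (K G : Subgroup Γ), NIn K G →
  ∀ χ ∈ IrrS G, ∀ ξ ∈ IrrS K, Over χ ξ →
  ∀ z ∈ ZA F G G, (∀ g ∈ G, lam π ξ (cst K g z ^ Fintype.card Γ) = 0) → lam π χ z = 0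

/-- DC: conjugacy of the defect groups -/
def T_DC : Prop := ∀ (F : Type) [Field F] (π : integralClosure ℤ ℂ →+* F),
  Function.Surjective π → ∀ (ℓ : ℕ) [Fact ℓ.Prime] [CharP F ℓ]
  (Γ : Type) [Group Γ] [Fintype Γ] (N : Subgroup Γ),
  (∀ h : MonoidAlgebra F Γ → F, ∀ D E : Subgroup Γ, DefH ℓ N h D → DefH ℓ N h E →
    ∃ u ∈ N, E = D.map (MulAut.conj u).toMonoidHom) ∧
  (∀ h : MonoidAlgebra F Γ → F, ∀ D : Subgroup Γ, DefH ℓ N h D → ∀ u ∈ N,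
    DefH ℓ N h (D.map (MulAut.conj u).toMonoidHom)) ∧
  (∀ h h' : MonoidAlgebra F Γ → F, (∀ z ∈ ZA F N N, h z = h' z) → ∀ D : Subgroup Γ,
    DefH ℓ N h D → DefH ℓ N h' D) ∧
  (∀ u : Γ, Nm u N → ∀ θ ∈ IrrS N, ∀ D : Subgroup Γ, DefH ℓ N (lam π (cj u θ)) D →
    DefH ℓ N (lam π θ) (D.map (MulAut.conj u).toMonoidHom)) ∧
  (∀ θ ∈ IrrS N, ∀ θ' ∈ IrrS N, Blk π N θ θ' → ∀ D : Subgroup Γ, DefH ℓ N (lam π θ) D →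
    DefH ℓ N (lam π θ') D ∧ K0H π ℓ N θ' D = K0H π ℓ N θ D)

/-- OT: transitivity of `Over` -/
def T_OT : Prop := ∀ (Γ : Type) [Group Γ] [Fintype Γ] (N M G : Subgroup Γ), N ≤ M → M ≤ G →
  ∀ χ ∈ IrrS G, ∀ θ ∈ IrrS N, (Over χ θ ↔ ∃ ψ ∈ IrrS M, Over χ ψ ∧ Over ψ θ)

/-- KN: defect groups contained in the normal subgroup -/
def T_KN : Prop := ∀ (F : Type) [Field F] (π : integralClosure ℤ ℂ →+* F),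
  Function.Surjective π → ∀ (ℓ : ℕ) [Fact ℓ.Prime] [CharP F ℓ]
  (Γ : Type) [Group Γ] [Fintype Γ] (Y G D : Subgroup Γ), NIn Y G →
  ∀ χ ∈ IrrS G, ∀ ξ ∈ IrrS Y, Over χ ξ → Sta π G Y ξ → DefH ℓ G (lam π χ) D → D ≤ Y →
  DefH ℓ Y (lam π ξ) D ∧ ∀ g ∈ G, ∃ y ∈ Y, y * g ∈ Subgroup.normalizer (D : Set Γ)

/-- LD: defect groups when the index is prime to `ℓ` -/
def T_LD : Prop := ∀ (F : Type) [Field F] (π : integralClosure ℤ ℂ →+* F),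
  Function.Surjective π → ∀ (ℓ : ℕ) [Fact ℓ.Prime] [CharP F ℓ]
  (Γ : Type) [Group Γ] [Fintype Γ] (Y G D : Subgroup Γ), NIn Y G → ¬ ℓ ∣ Y.relIndex G →
  ∀ χ ∈ IrrS G, ∀ ξ ∈ IrrS Y, Over χ ξ → Sta π G Y ξ → DefH ℓ Y (lam π ξ) D →
  DefH ℓ G (lam π χ) D

/-! ## G. The subgroup `G[β]` -/

/-- GR: `G[β]` is a normal subgroup which fixes all characters of `β` -/
def T_GR : Prop := ∀ (F : Type) [Field F] (π : integralClosure ℤ ℂ →+* F),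
  Function.Surjective π → ∀ (ℓ : ℕ) [Fact ℓ.Prime] [CharP F ℓ]
  (Γ : Type) [Group Γ] [Fintype Γ] (K G : Subgroup Γ), NIn K G → ∀ ξ ∈ IrrS K, Sta π G K ξ →
  NIn (GB π K G ξ) G ∧ K ≤ GB π K G ξ ∧
  (∀ g, g ∈ GB π K G ξ ↔ g ∈ G ∧ ∃ z ∈ VS F K g, lam π ξ (z ^ Fintype.card Γ) ≠ 0) ∧
  (∀ g ∈ GB π K G ξ, ∀ ξ' ∈ IrrS K, Blk π K ξ ξ' → cj g ξ' = ξ') ∧
  (∀ ξ' ∈ IrrS K, Blk π K ξ ξ' → GB π K G ξ' = GB π K G ξ) ∧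
  (∀ G' : Subgroup Γ, K ≤ G' → G' ≤ G → GB π K G' ξ = G' ⊓ GB π K G ξ)

/-- UB: blocks of `G` above a block of `G[β]` -/
def T_UB : Prop := ∀ (F : Type) [Field F] (π : integralClosure ℤ ℂ →+* F),
  Function.Surjective π → ∀ (ℓ : ℕ) [Fact ℓ.Prime] [CharP F ℓ]
  (Γ : Type) [Group Γ] [Fintype Γ] (K G : Subgroup Γ), NIn K G → ∀ ξ ∈ IrrS K, Sta π G K ξ →
  (∀ χ ∈ IrrS G, ∀ ξ' ∈ IrrS K, Over χ ξ' → Blk π K ξ ξ' → ∀ z ∈ ZA F G G,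
    (∀ x ∈ GB π K G ξ, z.coeff x = 0) → lam π χ z = 0) ∧
  (∀ χ ∈ IrrS G, ∀ χ' ∈ IrrS G, ∀ ξ₁ ∈ IrrS K, ∀ ξ₂ ∈ IrrS K, Over χ ξ₁ → Over χ' ξ₂ →
    Blk π K ξ ξ₁ → Blk π K ξ ξ₂ → (∀ z ∈ ZA F (GB π K G ξ) G, lam π χ' z = lam π χ z) →
    Blk π G χ χ')

/-- LP: the index of `G[β]` is prime to `ℓ` -/
def T_LP : Prop := ∀ (F : Type) [Field F] (π : integralClosure ℤ ℂ →+* F),
  Function.Surjective π → ∀ (ℓ : ℕ) [Fact ℓ.Prime] [CharP F ℓ]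
  (Γ : Type) [Group Γ] [Fintype Γ] (Y G D : Subgroup Γ), NIn Y G → ∀ ξ ∈ IrrS Y, Sta π G Y ξ →
  ∀ χ ∈ IrrS G, Over χ ξ → DefH ℓ G (lam π χ) D → D ≤ Y →
  ∀ χ' ∈ IrrS (GB π Y G ξ), Over χ χ' → Sta π G (GB π Y G ξ) χ' →
  ¬ ℓ ∣ (GB π Y G ξ).relIndex G

/-- CD: the elements of `G[β]` centralise the defect group modulo `Y` -/
def T_CD : Prop := ∀ (F : Type) [Field F] (π : integralClosure ℤ ℂ →+* F),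
  Function.Surjective π → ∀ (ℓ : ℕ) [Fact ℓ.Prime] [CharP F ℓ]
  (Γ : Type) [Group Γ] [Fintype Γ] (Y G D : Subgroup Γ), NIn Y G → ∀ ξ ∈ IrrS Y, Sta π G Y ξ →
  DefH ℓ Y (lam π ξ) D → ∀ g ∈ GB π Y G ξ, ∃ y ∈ Y, y * g ∈ Subgroup.centralizer (D : Set Γ)

/-- LG: `G[β]` and the Brauer correspondence -/
def T_LG : Prop := ∀ (F : Type) [Field F] (π : integralClosure ℤ ℂ →+* F),
  Function.Surjective π → ∀ (ℓ : ℕ) [Fact ℓ.Prime] [CharP F ℓ]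
  (Γ : Type) [Group Γ] [Fintype Γ] (Y G D : Subgroup Γ), NIn Y G → ∀ ξ ∈ IrrS Y, Sta π G Y ξ →
  DefH ℓ Y (lam π ξ) D → ∀ ξ' ∈ IrrS (Y ⊓ Subgroup.normalizer (D : Set Γ)), Cor π Y D ξ ξ' →
  (∀ g ∈ G ⊓ Subgroup.normalizer (D : Set Γ), ∀ z ∈ VS F Y g,
    br D z ∈ VS F (Y ⊓ Subgroup.normalizer (D : Set Γ)) g ∧
    lam π ξ' (br D z ^ Fintype.card Γ) = lam π ξ (z ^ Fintype.card Γ)) ∧
  GB π (Y ⊓ Subgroup.normalizer (D : Set Γ)) (G ⊓ Subgroup.normalizer (D : Set Γ)) ξ' =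
    GB π Y G ξ ⊓ Subgroup.normalizer (D : Set Γ)

end AMt
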