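import Pool.Agent.H77.EA.All3
import Pool.Agent.H19.AM.EA

/-!
# Alperin–McKay, reduction to almost simple groups (MP_657073_al): the facts of the old library

All facts `fA1` … `fYC` of `Pool.Agent.H77.EA.All` may be used; here are three more.
-/

open AMc AMe Pool.Agent.H77.EA.All

namespace AMt

theorem fE3 : T_E3 := AMc.e3 fS1 fS2 fS3 fS4 fS7 fE2
theorem fE5 : T_E5 := AMc.e5 fE2 fE3
theorem fE7 : T_E7 := AMc.e7 fS1 fS2 fS3 fS4 fS7 fE2
theorem fE8 : T_E8 := AMc.e8 fS1 fS2 fS3 fS4 fS7 fS8 fE2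

end AMt
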