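import Pool.Agent.H10.T2.Targets3
import Pool.Agent.H77.EA.All3

/-!
# Alperin–McKay, reduction to almost simple groups: targets, part 4
(normal subgroups `K` with `D ∩ K` central)
-/

open scoped Classical ComplexConjugate

namespace AMt

open AMc AMe

/-! ## V. Central intersections -/

/-- FF: formula for the scalar -/
def T_FF : Prop := ∀ (Γ : Type) [Group Γ] [Fintype Γ] (K U : Subgroup Γ) (θ : Γ → ℂ)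
  (H : Type) [Group H] [Fintype H] (p : H →* Γ) (i : K →* H) (τ : H → ℂ), Trp K U θ p i τ →
  ∀ a, ∀ z' ∈ VS ℂ K (p a), ∀ f : ℂ, z' * ei K θ = f • sm K θ p i τ a →
  f * θ 1 = ∑ k : K, z'.coeff (p a * k) * τ (a * i k)

/-- MU: multiplicativity on the commutant -/
def T_MU : Prop := ∀ (Γ : Type) [Group Γ] [Fintype Γ] (K Y : Subgroup Γ), NIn K Y →
  ∀ θ ∈ IrrS K, ∀ ξ ∈ IrrS Y, (∀ k ∈ K, ξ k = θ k) → ∀ v ∈ ZA ℂ Y K, ∀ w ∈ ZA ℂ Y K,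
  ev ξ (v * w) * ξ 1 = ev ξ v * ev ξ w

/-- RT: Schur relation for characters which extend -/
def T_RT : Prop := ∀ (Γ : Type) [Group Γ] [Fintype Γ] (N G : Subgroup Γ), NIn N G →
  ∀ χ ∈ IrrS N, ∀ τ ∈ IrrS G, (∀ g ∈ N, τ g = χ g) → ∀ a ∈ G, ∀ b ∈ G,
  ∑ k : N, τ (a * k) * τ ((k : Γ)⁻¹ * b) = (Nat.card N : ℂ) / χ 1 * τ (a * b)

/-- RE: intermediate restriction -/
def T_RE : Prop := ∀ (Γ : Type) [Group Γ] [Fintype Γ] (N L G : Subgroup Γ), NIn N G → N ≤ L →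
  L ≤ G → ∀ χ ∈ IrrS N, ∀ τ ∈ IrrS G, (∀ g ∈ N, τ g = χ g) →
  (fun g => if g ∈ L then τ g else 0) ∈ IrrS L

/-- C7: the value of `C` expressed by units over `y` -/
def T_C7 : Prop := ∀ (F : Type) [Field F] (π : integralClosure ℤ ℂ →+* F),
  Function.Surjective π → ∀ (ℓ : ℕ) [Fact ℓ.Prime] [CharP F ℓ]
  (Γ : Type) [Group Γ] [Fintype Γ] (K B Y : Subgroup Γ), NIn K Y → K ≤ B → B ≤ Y →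
  (∃ n, K.relIndex Y = ℓ ^ n) → ∀ θ ∈ IrrS K, ∀ ξB ∈ IrrS B, ∀ ξ ∈ IrrS Y,
  (∀ k ∈ K, ξ k = θ k) → (∀ b ∈ B, ξ b = ξB b) → ∀ x y : Γ, Nm x K → Nm y K → Nm x B →
  Nm y B → Nm x Y → Nm y Y → cj x ξ = ξ → cj y ξ = ξ →
  ∀ zy ∈ VS F B y, ∀ zy' ∈ VS F B y⁻¹, lam π ξB (zy * zy') = 1 →
  ∀ z ∈ VS F Y (x * y * x⁻¹ * y⁻¹), ∀ R : Finset Γ, Tv R K Y →
  cb π Y ξ x y z ^ (K.relIndex Y) =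
    ∑ d ∈ R, lam π θ ((cst K d (z * (zy * cn x zy'))) ^ (K.relIndex Y))

/-- CX: characters above an invariant character, cyclic factor group -/
def T_CX : Prop := ∀ (Γ : Type) [Group Γ] [Fintype Γ] (K G : Subgroup Γ), NIn K G →
  ∀ g ∈ G, (∀ h ∈ G, ∃ c : ℕ, ∃ k ∈ K, h = g ^ c * k) → ∀ θ ∈ IrrS K, cj g θ = θ →
  ∀ χ ∈ IrrS G, Over χ θ → ∀ k ∈ K, χ k = θ k

/-- ZC: blocks with central defect group -/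
def T_ZC : Prop := ∀ (F : Type) [Field F] (π : integralClosure ℤ ℂ →+* F),
  Function.Surjective π → ∀ (ℓ : ℕ) [Fact ℓ.Prime] [CharP F ℓ]
  (Γ : Type) [Group Γ] [Fintype Γ] (K Z A : Subgroup Γ) (ν : Γ → ℂ), Cen K Z ν →
  ∀ θ ∈ IrrS K, DefH ℓ K (lam π θ) A → A ≤ Z →
  (∀ θ₁ ∈ IrrS K, ∀ θ₂ ∈ IrrS K, Blk π K θ θ₁ → Blk π K θ θ₂ →
    (∀ z ∈ Z, θ₁ z = ν z * θ₁ 1) → (∀ z ∈ Z, θ₂ z = ν z * θ₂ 1) → θ₁ = θ₂) ∧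
  ((∀ z ∈ Z, ¬ ℓ ∣ orderOf z → θ z = ν z * θ 1) →
    ∃ θ₁ ∈ IrrS K, Blk π K θ θ₁ ∧ ∀ z ∈ Z, θ₁ z = ν z * θ₁ 1) ∧
  (∀ θ₁ ∈ IrrS K, Blk π K θ θ₁ → θ₁ ∈ K0H π ℓ K θ A ∧
    ∀ z ∈ Z, ¬ ℓ ∣ orderOf z → θ₁ z * θ 1 = θ z * θ₁ 1)

/-- YG: units over elements which centralise the group modulo the centre -/
def T_YG : Prop := ∀ (F : Type) [Field F] (π : integralClosure ℤ ℂ →+* F),
  Function.Surjective π → ∀ (ℓ : ℕ) [Fact ℓ.Prime] [CharP F ℓ]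
  (Γ : Type) [Group Γ] [Fintype Γ] (K B D₁ Z A : Subgroup Γ) (y : Γ) (ν θ ξB : Γ → ℂ) (m : ℕ),
  NIn K B → Z ≤ K → Cen B Z ν → (∀ z ∈ Z, z * y = y * z) → IsPGroup ℓ D₁ → D₁ ≤ B →
  (∀ b ∈ B, ∃ k ∈ K, ∃ d ∈ D₁, b = k * d) → Nm y K → (∀ d ∈ D₁, y * d * y⁻¹ * d⁻¹ ∈ Z) →
  ¬ ℓ ∣ m → y ^ m ∈ K → θ ∈ IrrS K → (∀ z ∈ Z, θ z = ν z * θ 1) →
  DefH ℓ K (lam π θ) A → A ≤ Z → ξB ∈ IrrS B → (∀ k ∈ K, ξB k = θ k) → cj y ξB = ξB →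
  ∃ zy ∈ VS F B y, lam π ξB (zy ^ Fintype.card Γ) ≠ 0

/-- KS: if `Y = K D` then the block of `K` is stable -/
def T_KS : Prop := ∀ (F : Type) [Field F] (π : integralClosure ℤ ℂ →+* F),
  Function.Surjective π → ∀ (ℓ : ℕ) [Fact ℓ.Prime] [CharP F ℓ]
  (Γ : Type) [Group Γ] [Fintype Γ] (K Y D : Subgroup Γ), NIn K Y →
  (∀ g ∈ Y, ∃ k ∈ K, ∃ d ∈ D, g = k * d) → ∀ ξ ∈ IrrS Y, DefH ℓ Y (lam π ξ) D →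
  (∃ n, K.relIndex Y = ℓ ^ n) ∧
  ∀ θ ∈ IrrS K, Over ξ θ → Sta π Y K θ ∧ DefH ℓ K (lam π θ) (D ⊓ K)

/-- LC: linear constituents -/
def T_LC : Prop := ∀ (F : Type) [Field F] (π : integralClosure ℤ ℂ →+* F),
  Function.Surjective π → ∀ (ℓ : ℕ) [Fact ℓ.Prime] [CharP F ℓ]
  (H : Type) [Group H] [Fintype H] (G P : Subgroup H), P ≤ G → IsPGroup ℓ P → ∀ τ ∈ IrrS G,
  ∀ x ∈ G, (∀ u ∈ P, x * u = u * x) → rd π (τ x) ≠ 0 → ∃ φ ∈ IrrS P, φ 1 = 1 ∧ Over τ φ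

/-- X0: a defect class inside `K` -/
def T_X0 : Prop := ∀ (F : Type) [Field F] (π : integralClosure ℤ ℂ →+* F),
  Function.Surjective π → ∀ (ℓ : ℕ) [Fact ℓ.Prime] [CharP F ℓ]
  (Γ : Type) [Group Γ] [Fintype Γ] (K Y D : Subgroup Γ), NIn K Y →
  (∀ g ∈ Y, ∃ k ∈ K, ∃ d ∈ D, g = k * d) → ∀ ξ ∈ IrrS Y, DefH ℓ Y (lam π ξ) D →
  ∃ x₀ ∈ K, D ≤ Subgroup.centralizer {x₀} ∧ ∀ ξ₁ ∈ IrrS Y, Blk π Y ξ ξ₁ →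
    ∀ θ ∈ IrrS K, Over ξ₁ θ → θ ∈ K0H π ℓ K θ (D ⊓ K) → rd π (θ x₀) ≠ 0

/-- EX: extension to `K D` -/
def T_EX : Prop := ∀ (F : Type) [Field F] (π : integralClosure ℤ ℂ →+* F),
  Function.Surjective π → ∀ (ℓ : ℕ) [Fact ℓ.Prime] [CharP F ℓ]
  (Γ : Type) [Group Γ] [Fintype Γ] (K Y D Z : Subgroup Γ) (ν θ φ : Γ → ℂ) (x₀ : Γ), NIn K Y →
  Z ≤ K → Cen Y Z ν → D ≤ Y → IsPGroup ℓ D → (∀ g ∈ Y, ∃ k ∈ K, ∃ d ∈ D, g = k * d) →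
  D ⊓ K ≤ Z → θ ∈ IrrS K → (∀ u ∈ Y, cj u θ = θ) → (∀ z ∈ Z, θ z = ν z * θ 1) → x₀ ∈ K →
  D ≤ Subgroup.centralizer {x₀} → rd π (θ x₀) ≠ 0 → φ ∈ IrrS D → φ 1 = 1 →
  (∀ a ∈ D ⊓ Z, φ a = ν a) → ∃ ψ ∈ IrrS Y, ∀ k ∈ K, ψ k = θ k

/-- EN: the characters of height zero of `K D` over `ν` -/
def T_EN : Prop := ∀ (F : Type) [Field F] (π : integralClosure ℤ ℂ →+* F),
  Function.Surjective π → ∀ (ℓ : ℕ) [Fact ℓ.Prime] [CharP F ℓ]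
  (Γ : Type) [Group Γ] [Fintype Γ] (K Y D Z : Subgroup Γ) (ν : Γ → ℂ), NIn K Y →
  Z ≤ K → Cen Y Z ν → (∀ g ∈ Y, ∃ k ∈ K, ∃ d ∈ D, g = k * d) → D ⊓ K ≤ Z →
  ∀ ξ ∈ IrrS Y, DefH ℓ Y (lam π ξ) D →
  ((K0N π ℓ Y ξ D Z ν).Nonempty ↔ (∀ z ∈ Z, ¬ ℓ ∣ orderOf z → ξ z = ν z * ξ 1) ∧
    ∃ φ ∈ IrrS D, φ 1 = 1 ∧ ∀ a ∈ D ⊓ Z, φ a = ν a) ∧
  (∀ a ∈ K0N π ℓ Y ξ D Z ν, ∃ θ ∈ IrrS K, (∀ k ∈ K, a k = θ k) ∧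
    DefH ℓ K (lam π θ) (D ⊓ K) ∧ (∀ z ∈ Z, θ z = ν z * θ 1) ∧
    ∀ b ∈ K0N π ℓ Y ξ D Z ν, ∀ k ∈ K, b k = θ k) ∧
  (∀ a ∈ K0N π ℓ Y ξ D Z ν, ∀ b ∈ K0N π ℓ Y ξ D Z ν, ∃ μ ∈ LinF Y K 1,
    b = fun g => μ g * a g) ∧
  (∀ a ∈ K0N π ℓ Y ξ D Z ν, ∀ μ ∈ LinF Y K 1, (fun g => μ g * a g) ∈ K0N π ℓ Y ξ D Z ν)

/-- TO: fixed points on a torsor, coprime action of a group -/
def T_TO : Prop := ∀ (ℓ : ℕ) [Fact ℓ.Prime] (L T E : Type) [CommGroup L] [Finite L]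
  [MulAction L T] [Group E] [Finite E] [MulAction E T] (s : E →* MulAut L), IsPGroup ℓ L →
  (∀ t t' : T, ∃! μ : L, μ • t = t') → Nonempty T →
  (∀ (e : E) (μ : L) (t : T), e • (μ • t) = (s e μ) • (e • t)) →
  ∀ E₀ : Subgroup E, E₀.Normal → ¬ ℓ ∣ E₀.index → (∀ e ∈ E₀, ∀ t : T, e • t = t) →
  Nat.card {t : T // ∀ e : E, e • t = t} = Nat.card {μ : L // ∀ e : E, s e μ = μ}

/-- NC: the number of fixed members of a torsor of characters -/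
def T_NC : Prop := ∀ (ℓ : ℕ) [Fact ℓ.Prime] (Γ : Type) [Group Γ] [Fintype Γ]
  (K Y J : Subgroup Γ) (x y : Γ), NIn K J → NIn Y J → K ≤ Y → ¬ ℓ ∣ Y.relIndex J →
  (∃ n, K.relIndex Y = ℓ ^ n) → x ∈ J → y ∈ J → ∀ A : Set (Γ → ℂ), (∀ a ∈ A, a ∈ IrrS Y) →
  (∀ a ∈ A, ∃ θ ∈ IrrS K, ∀ k ∈ K, a k = θ k) → A.Nonempty →
  (∀ a ∈ A, ∀ b ∈ A, ∃ μ ∈ LinF Y K 1, b = fun g => μ g * a g) →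
  (∀ a ∈ A, ∀ μ ∈ LinF Y K 1, (fun g => μ g * a g) ∈ A) → (∀ a ∈ A, cj x a ∈ A) →
  (∀ a ∈ A, cj y a ∈ A) →
  {a | a ∈ A ∧ cj x a = a ∧ cj y a = a}.ncard =
    {μ | μ ∈ LinF Y K 1 ∧ cj x μ = μ ∧ cj y μ = μ}.ncard ∧
  {a | a ∈ A ∧ cj x a = a ∧ cj y a = a}.Nonempty

/-- NL: restriction of linear characters -/
def T_NL : Prop := ∀ (Γ : Type) [Group Γ] [Fintype Γ] (K Y Y₁ : Subgroup Γ) (x y : Γ),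
  NIn K Y → Y₁ ≤ Y → (∀ g ∈ Y, ∃ k ∈ K, k * g ∈ Y₁) → Nm x K → Nm y K → Nm x Y → Nm y Y →
  Nm x Y₁ → Nm y Y₁ →
  {μ | μ ∈ LinF Y K 1 ∧ cj x μ = μ ∧ cj y μ = μ}.ncard =
    {μ | μ ∈ LinF Y₁ (K ⊓ Y₁) 1 ∧ cj x μ = μ ∧ cj y μ = μ}.ncard

/-- IR: reduction to a pair whose second member acts trivially -/
def T_IR : Prop := ∀ (Γ : Type) [Group Γ] [Fintype Γ] (A D₁ : Subgroup Γ) (x y : Γ),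
  NIn A D₁ → (∀ d ∈ D₁, ∀ e ∈ D₁, d * e * d⁻¹ * e⁻¹ ∈ A) → Nm x A → Nm y A → Nm x D₁ →
  Nm y D₁ → (∀ d ∈ D₁, (x * y * x⁻¹ * y⁻¹) * d * (x * y * x⁻¹ * y⁻¹)⁻¹ * d⁻¹ ∈ A) →
  (∀ M : Subgroup Γ, A ≤ M → M ≤ D₁ → Nm x M → Nm y M → M = A ∨ M = D₁) →
  ∀ P Q : Γ → Γ → Prop, (∀ a b, Q a b → Q (a * b) b ∧ Q b⁻¹ a ∧ (P (a * b) b ↔ P a b) ∧
    (P b⁻¹ a ↔ P a b)) → Q x y →
  ∃ x₁ ∈ Subgroup.closure {x, y}, ∃ y₁ ∈ Subgroup.closure {x, y}, Q x₁ y₁ ∧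
    (P x₁ y₁ ↔ P x y) ∧ ∀ d ∈ D₁, y₁ * d * y₁⁻¹ * d⁻¹ ∈ A

/-- the standing data for normal subgroups `K` with `D ∩ K ≤ Z`; `J / Y` has order prime to `ℓ` -/
structure SD7 {F : Type} [Field F] (π : integralClosure ℤ ℂ →+* F) (ℓ : ℕ) {Γ : Type} [Group Γ]
    [Fintype Γ] (J Y K D Z : Subgroup Γ) (ν ξ : Γ → ℂ) : Prop where
  nK : NIn K J
  nY : NIn Y J
  KY : K ≤ Y
  cen : Cen J Z ν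
  ZK : Z ≤ K
  YKD : ∀ g ∈ Y, ∃ k ∈ K, ∃ d ∈ D, g = k * d
  DK : D ⊓ K ≤ Z
  cop : ¬ ℓ ∣ Y.relIndex J
  irr : ξ ∈ IrrS Y
  sta : Sta π J Y ξ
  def' : DefH ℓ Y (lam π ξ) D

/-- S7A: one step, for a pair `(x, y)` where `y` centralises `D₁` modulo `Z` -/
def T_S7A : Prop := ∀ (F : Type) [Field F] (π : integralClosure ℤ ℂ →+* F),
  Function.Surjective π → ∀ (ℓ : ℕ) [Fact ℓ.Prime] [CharP F ℓ]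
  (Γ : Type) [Group Γ] [Fintype Γ] (J Y K D D₁ Z : Subgroup Γ) (ν ξ ξ₁ : Γ → ℂ) (x y : Γ)
  (m : ℕ), SD7 π ℓ J Y K D Z ν ξ → D₁ ≤ D → D ⊓ Z ≤ D₁ →
  (∀ d ∈ D₁, ∀ e ∈ D, d * e * d⁻¹ * e⁻¹ ∈ Z) →
  x ∈ J → y ∈ J → x ∈ Subgroup.normalizer (D : Set Γ) → y ∈ Subgroup.normalizer (D : Set Γ) →
  x ∈ Subgroup.normalizer (D₁ : Set Γ) → y ∈ Subgroup.normalizer (D₁ : Set Γ) →
  ¬ ℓ ∣ m → y ^ m ∈ K → (∀ d ∈ D₁, y * d * y⁻¹ * d⁻¹ ∈ Z) →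
  ξ₁ ∈ IrrS (Y ⊓ Subgroup.normalizer (D₁ : Set Γ)) → Cor π Y D₁ ξ ξ₁ →
  DefH ℓ (Y ⊓ Subgroup.normalizer (D₁ : Set Γ)) (lam π ξ₁) D →
  Blk π (Y ⊓ Subgroup.normalizer (D₁ : Set Γ)) ξ₁ (cj x ξ₁) →
  Blk π (Y ⊓ Subgroup.normalizer (D₁ : Set Γ)) ξ₁ (cj y ξ₁) →
  TEq π ℓ Y D₁ D Z ν ξ ξ₁ x y

/-- S7B: equality of the `T`-sums -/
def T_S7B : Prop := ∀ (F : Type) [Field F] (π : integralClosure ℤ ℂ →+* F),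
  Function.Surjective π → ∀ (ℓ : ℕ) [Fact ℓ.Prime] [CharP F ℓ]
  (𝓓 : (D : Type) → [Group D] → Prop) (n : ℕ) (Γ : Type) [Group Γ] [Fintype Γ]
  (J Y K D Z L : Subgroup Γ) (ν ξ ξ' : Γ → ℂ) (x y : Γ), AMn π ℓ 𝓓 n → Cl ℓ 𝓓 → 𝓓 D →
  SD7 π ℓ J Y K D Z ν ξ →
  (∀ D₁ : Subgroup Γ, D₁ ≤ D → ¬ D₁ ≤ Z →
    Z.relIndex (J ⊓ Subgroup.normalizer (D₁ : Set Γ)) ≤ n) →
  L ≤ J ⊓ Subgroup.normalizer (D : Set Γ) → K ⊓ Subgroup.normalizer (D : Set Γ) ≤ L →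
  ¬ ℓ ∣ (K ⊓ Subgroup.normalizer (D : Set Γ)).relIndex L → x ∈ L → y ∈ L →
  x * y * x⁻¹ * y⁻¹ ∈ GB π Y J ξ →
  ξ' ∈ IrrS (Y ⊓ Subgroup.normalizer (D : Set Γ)) → Cor π Y D ξ ξ' →
  TEq π ℓ Y D D Z ν ξ ξ' x y

/-- S7: the equality of Alperin–McKay when `D ∩ K` is central -/
def T_S7 : Prop := ∀ (F : Type) [Field F] (π : integralClosure ℤ ℂ →+* F),
  Function.Surjective π → ∀ (ℓ : ℕ) [Fact ℓ.Prime] [CharP F ℓ]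
  (𝓓 : (D : Type) → [Group D] → Prop) (n : ℕ) (Γ : Type) [Group Γ] [Fintype Γ]
  (G K D Z : Subgroup Γ) (ν χ ψ : Γ → ℂ), AMn π ℓ 𝓓 n → Cl ℓ 𝓓 → 𝓓 D →
  NIn K G → NIn (K ⊔ D) G → Cen G Z ν → Z ≤ K → D ⊓ K ≤ Z → Z.relIndex G ≤ n + 1 →
  (∀ P : Subgroup Γ, NIn P G → IsPGroup ℓ P → P ≤ Z) →
  χ ∈ IrrS G → DefH ℓ G (lam π χ) D →
  (∀ N : Subgroup Γ, NIn N G → Z ≤ N → ∀ ξ ∈ IrrS N, Over χ ξ → Sta π G N ξ) →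
  ψ ∈ IrrS (G ⊓ Subgroup.normalizer (D : Set Γ)) → Cor π G D χ ψ →
  (K0N π ℓ G χ D Z ν).ncard =
    (K0N π ℓ (G ⊓ Subgroup.normalizer (D : Set Γ)) ψ D Z ν).ncard

end AMt
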