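import Pool.Agent.H10.T2.Base

/-!
# Alperin–McKay, reduction to almost simple groups (MP_657073_al): definitions

Everything is built on the libraries `AMc` (`Pool/Agent/H3/AM`) and `AMe` (`Pool/Agent/H77/EA`):
all groups are subgroups of an ambient finite group `Γ`, characters of a subgroup `N` are functions
on `Γ` vanishing off `N` (`IrrS N`), `cj u θ g = θ (u g u⁻¹)`, `lam π θ` is the modular central
character, `ZA R N U` the `U`-invariant elements of `R[Γ]` supported on `N`, `br P` the Brauer map.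
-/

open scoped Classical ComplexConjugate

namespace AMt

open AMc AMe

/-! ## Group algebras -/

section

variable {Γ : Type} [Group Γ]

/-- `K ≤ U` is normalised by `U` -/
structure NIn (K U : Subgroup Γ) : Prop where
  le : K ≤ U
  nor : ∀ u ∈ U, ∀ g ∈ K, u * g * u⁻¹ ∈ K

/-- conjugation `u z u⁻¹` in the group algebra -/
noncomputable def cn {R : Type} [CommRing R] (u : Γ) (z : MonoidAlgebra R Γ) :
    MonoidAlgebra R Γ :=
  MonoidAlgebra.single u 1 * z * MonoidAlgebra.single u⁻¹ 1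

/-- the `K`-invariant elements of the group algebra supported on the coset `g K` -/
def VS (R : Type) [CommRing R] (K : Subgroup Γ) (g : Γ) : Set (MonoidAlgebra R Γ) :=
  {z | (∀ x, z.coeff x ≠ 0 → g⁻¹ * x ∈ K) ∧ ∀ k ∈ K, ∀ x, z.coeff (k * x * k⁻¹) = z.coeff x}

/-- the part of `z` supported on the coset `g K` -/
noncomputable def cst {R : Type} [CommRing R] (K : Subgroup Γ) (g : Γ) (z : MonoidAlgebra R Γ) :
    MonoidAlgebra R Γ :=
  MonoidAlgebra.ofCoeff (z.coeff.filter fun x => g⁻¹ * x ∈ K)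

/-- `R` is a set of representatives of the cosets `v Y`, `v ∈ U` -/
def Tv (R : Finset Γ) (Y U : Subgroup Γ) : Prop :=
  (∀ r ∈ R, r ∈ U) ∧ ∀ u ∈ U, ∃! r, r ∈ R ∧ r⁻¹ * u ∈ Y

variable [Fintype Γ]

/-- linear extension of a function to the group algebra -/
noncomputable def ev (θ : Γ → ℂ) (z : MonoidAlgebra ℂ Γ) : ℂ := ∑ g : Γ, z.coeff g * θ g

/-- the central idempotent of the character `θ` of `K` -/
noncomputable def ei (K : Subgroup Γ) (θ : Γ → ℂ) : MonoidAlgebra ℂ Γ :=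
  MonoidAlgebra.ofCoeff (Finsupp.equivFunOnFinite.symm fun g =>
    θ 1 / (Nat.card K : ℂ) * conj (θ g))

/-- the elements of `VS ℂ K g` in the `θ`-component -/
def SS (K : Subgroup Γ) (θ : Γ → ℂ) (g : Γ) : Set (MonoidAlgebra ℂ Γ) :=
  {s | s ∈ VS ℂ K g ∧ s * ei K θ = s}

/-! ## Character triples -/

/-- `H` is a finite central extension of `U` by roots of unity (`p : H → U`), containing `K`
(`i : K → H`), such that the `U`-invariant character `θ` of `K` extends to the character `τ`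
of `H`; the central kernel of `p` acts faithfully -/
structure Trp (K U : Subgroup Γ) (θ : Γ → ℂ) {H : Type} [Group H] [Fintype H]
    (p : H →* Γ) (i : K →* H) (τ : H → ℂ) : Prop where
  nin : NIn K U
  irr : θ ∈ IrrS K
  inv : ∀ u ∈ U, cj u θ = θ
  rng : p.range = U
  pi : ∀ k, p (i k) = k
  cjk : ∀ a k, ∃ k', i k' = a * i k * a⁻¹
  kerp : ∀ z, p z = 1 → ∀ a, z * a = a * z
  tau : τ ∈ Irr H
  res : ∀ k, τ (i k) = θ k
  fai : ∀ z, p z = 1 → τ z = τ 1 → z = 1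
  sch : ∀ a b, ∑ k : K, τ (a * i k) * τ ((i k)⁻¹ * b) = (Nat.card K : ℂ) / θ 1 * τ (a * b)

/-- the element `(θ(1)/|K|) ∑ₖ conj τ(a k) p(a) k` of the group algebra; it implements `p a`
on the commutant of `K` in the `θ`-component -/
noncomputable def sm (K : Subgroup Γ) (θ : Γ → ℂ) {H : Type} [Group H] [Fintype H]
    (p : H →* Γ) (i : K →* H) (τ : H → ℂ) (a : H) : MonoidAlgebra ℂ Γ :=
  ∑ k : K, MonoidAlgebra.single (p a * k) (θ 1 / (Nat.card K : ℂ) * conj (τ (a * i k)))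

/-! ## Reduction modulo the maximal ideal -/

variable {F : Type} [Field F] (π : integralClosure ℤ ℂ →+* F)

/-- `z'` has algebraic integer coefficients and reduces to `z` -/
def Lf (z' : MonoidAlgebra ℂ Γ) (z : MonoidAlgebra F Γ) : Prop :=
  ∀ g, IsIntegral ℤ (z'.coeff g) ∧ rd π (z'.coeff g) = z.coeff g

/-- the subgroup `G[β]` of `G` (`β` the block of the character `ξ` of `K`): the elements `g` such
that some `z ∈ VS F K g` is a unit modulo the radical -/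
noncomputable def GB (K G : Subgroup Γ) (ξ : Γ → ℂ) : Subgroup Γ :=
  Subgroup.closure {g | g ∈ G ∧ ∃ z ∈ VS F K g, lam π ξ (z ^ Fintype.card Γ) ≠ 0}

/-- the function `T` attached to the block of `χ` -/
noncomputable def TT (R : Finset Γ) (χ : Γ → ℂ) (z : MonoidAlgebra F Γ) : F :=
  lam π χ (∑ v ∈ R, cn v z)

/-- dual systems of units `zz v ∈ VS F Y v`, `zz' v ∈ VS F Y v⁻¹` -/
def Du (ξ : Γ → ℂ) (Y : Subgroup Γ) (R : Finset Γ) (zz zz' : Γ → MonoidAlgebra F Γ) : Prop :=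
  ∀ v ∈ R, zz v ∈ VS F Y v ∧ zz' v ∈ VS F Y v⁻¹ ∧ lam π ξ (zz v * zz' v) = 1

/-- `κ_χ(x, y)`: `x s x⁻¹ = κ s` for the elements `s` of `SS N χ y` -/
def Kp (N : Subgroup Γ) (χ : Γ → ℂ) (x y : Γ) (κ : ℂ) : Prop :=
  ∃ s ∈ SS N χ y, s ≠ 0 ∧ cn x s = κ • s

/-- `C_ξ(x, y; z)`: `z s = C (x s x⁻¹)` for the elements `s` of `SS K ξ y` -/
def Cc (K : Subgroup Γ) (ξ : Γ → ℂ) (x y : Γ) (z : MonoidAlgebra ℂ Γ) (c : ℂ) : Prop :=
  ∃ s ∈ SS K ξ y, s ≠ 0 ∧ z * s = c • cn x s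

/-- the reduction of `C_ξ(x, y; z)`, for `z` in the modular group algebra -/
def Cb (K : Subgroup Γ) (ξ : Γ → ℂ) (x y : Γ) (z : MonoidAlgebra F Γ) (c : F) : Prop :=
  ∃ z' : MonoidAlgebra ℂ Γ, ∃ c' : ℂ, Lf π z' z ∧ z' ∈ VS ℂ K (x * y * x⁻¹ * y⁻¹) ∧
    IsIntegral ℤ c' ∧ Cc K ξ x y z' c' ∧ rd π c' = c

/-- the function value -/
noncomputable def cb (K : Subgroup Γ) (ξ : Γ → ℂ) (x y : Γ) (z : MonoidAlgebra F Γ) : F :=
  if h : ∃ c, Cb π K ξ x y z c then h.choose else 0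

/-- the function value of `κ` -/
noncomputable def kp (N : Subgroup Γ) (χ : Γ → ℂ) (x y : Γ) : ℂ :=
  if h : ∃ κ, Kp N χ x y κ then h.choose else 0

/-- the root of unity of order prime to `ℓ` reducing to `a` -/
noncomputable def Te (ℓ : ℕ) (a : F) : ℂ :=
  if h : ∃ ζ : ℂ, (∃ r : ℕ, ¬ ℓ ∣ r ∧ ζ ^ r = 1) ∧ rd π ζ = a then h.choose else 0

/-- the `T`-sum over the members of `A` fixed by `x` and `y` -/
noncomputable def TS (ℓ : ℕ) (K : Subgroup Γ) (A : Set (Γ → ℂ)) (x y : Γ)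
    (z : MonoidAlgebra F Γ) : ℂ :=
  ∑ᶠ ξ ∈ {ξ | ξ ∈ A ∧ cj x ξ = ξ ∧ cj y ξ = ξ}, (Te π ℓ (cb π K ξ x y z))⁻¹

/-- characters of height zero in the block of `χ` over the linear function `ν` on `Z` -/
def K0N (ℓ : ℕ) (N : Subgroup Γ) (χ : Γ → ℂ) (P Z : Subgroup Γ) (ν : Γ → ℂ) : Set (Γ → ℂ) :=
  {a | a ∈ K0H π ℓ N χ P ∧ ∀ z ∈ Z, a z = ν z * a 1}

/-- `ν` is a linear character of the subgroup `Z`, centralised by `N` -/
structure Cen (N Z : Subgroup Γ) (ν : Γ → ℂ) : Prop where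
  le : Z ≤ N
  cen : ∀ z ∈ Z, ∀ g ∈ N, z * g = g * z
  one : ν 1 = 1
  mul : ∀ z ∈ Z, ∀ w ∈ Z, ν (z * w) = ν z * ν w

end

/-- the relative Alperin–McKay equality (with central characters) for all groups `N` with
`|N : Z| ≤ n`, and the defect groups in `𝓓` -/
def AMn {F : Type} [Field F] (π : integralClosure ℤ ℂ →+* F) (ℓ : ℕ)
    (𝓓 : (D : Type) → [Group D] → Prop) (n : ℕ) : Prop :=
  ∀ (Γ : Type) [Group Γ] [Fintype Γ] (N P Z : Subgroup Γ) (ν : Γ → ℂ), Cen N Z ν →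
    Z.relIndex N ≤ n → 𝓓 P → P ≤ N → ∀ χ ∈ IrrS N, DefH ℓ N (lam π χ) P →
    ∀ ψ ∈ IrrS (N ⊓ Subgroup.normalizer (P : Set Γ)), Cor π N P χ ψ →
    (K0N π ℓ N χ P Z ν).ncard =
      (K0N π ℓ (N ⊓ Subgroup.normalizer (P : Set Γ)) ψ P Z ν).ncard

/-- the closure conditions on the class of defect groups -/
structure Cl (ℓ : ℕ) (𝓓 : (D : Type) → [Group D] → Prop) : Prop where
  sub : ∀ (D E : Type) [Group D] [Group E] (f : D →* E), Function.Injective f → 𝓓 E → 𝓓 D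
  quo : ∀ (D E : Type) [Group D] [Group E] (f : D →* E), Function.Surjective f → 𝓓 D → 𝓓 E
  prd : ∀ (D E : Type) [Group D] [Group E], 𝓓 D → 𝓓 E → 𝓓 (D × E)
  cyc : ∀ (D : Type) [Group D] [Finite D], IsCyclic D → IsPGroup ℓ D → 𝓓 D

end AMt
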