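import Pool.Agent.H10.T2.Targets1

/-!
# Alperin–McKay, reduction to almost simple groups: targets, part 2
(the function `T`, the characters of `G[β]`, the counting formula)
-/

open scoped Classical ComplexConjugate

namespace AMt

open AMc AMe

/-! ## E. The function `T` and the characters of `U = G[β]` -/

/-- TI: values and formal properties of `TT` -/
def T_TI : Prop := ∀ (F : Type) [Field F] (π : integralClosure ℤ ℂ →+* F),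
  Function.Surjective π → ∀ (ℓ : ℕ) [Fact ℓ.Prime] [CharP F ℓ]
  (Γ : Type) [Group Γ] [Fintype Γ] (Y U : Subgroup Γ), NIn Y U → ∀ R : Finset Γ, Tv R Y U →
  ∀ χ ∈ IrrS U,
  (∀ z ∈ ZA F U Y, (∑ v ∈ R, cn v z) ∈ ZA F U U ∧ (∀ z' ∈ ZA ℂ U Y, Lf π z' z →
    IsIntegral ℤ ((Y.relIndex U : ℂ) * ev χ z' / χ 1) ∧
    TT π R χ z = rd π ((Y.relIndex U : ℂ) * ev χ z' / χ 1))) ∧
  (∀ z ∈ ZA F U Y, ∀ w ∈ ZA F U Y, TT π R χ (z + w) = TT π R χ z + TT π R χ w ∧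
    TT π R χ (z * w) = TT π R χ (w * z) ∧ (∀ c : F, TT π R χ (c • z) = c * TT π R χ z)) ∧
  (∀ c ∈ ZA F U U, ∀ z ∈ ZA F U Y, TT π R χ (c * z) = lam π χ c * TT π R χ z) ∧
  (∀ u ∈ U, ∀ z ∈ ZA F U Y, TT π R χ (cn u z) = TT π R χ z) ∧
  (∀ R' : Finset Γ, Tv R' Y U → ∀ z ∈ ZA F U Y, TT π R' χ z = TT π R χ z) ∧
  (∀ g : Γ, Nm g Y → Nm g U → Blk π U χ (cj g χ) → ∀ z ∈ ZA F U Y,
    TT π R χ (cn g z) = TT π R χ z) ∧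
  (∀ χ' ∈ IrrS U, Blk π U χ χ' → ∀ z ∈ ZA F U Y, TT π R χ' z = TT π R χ z)

/-- RH: the degree of a character of `U` with defect group inside `Y` -/
def T_RH : Prop := ∀ (F : Type) [Field F] (π : integralClosure ℤ ℂ →+* F),
  Function.Surjective π → ∀ (ℓ : ℕ) [Fact ℓ.Prime] [CharP F ℓ]
  (Γ : Type) [Group Γ] [Fintype Γ] (Y U D : Subgroup Γ), NIn Y U → ∀ R : Finset Γ, Tv R Y U →
  ∀ ξ ∈ IrrS Y, GB π Y U ξ = U → Sta π U Y ξ → ∀ χ ∈ IrrS U, Over χ ξ →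
  DefH ℓ U (lam π χ) D → D ≤ Y →
  (∃ z ∈ ZA F U Y, TT π R χ z ≠ 0) ∧
  ∀ m : ℕ, χ 1 = m * ξ 1 → padicValNat ℓ m = padicValNat ℓ (Y.relIndex U)

/-- HD: the two identities for `T` -/
def T_HD : Prop := ∀ (F : Type) [Field F] (π : integralClosure ℤ ℂ →+* F),
  Function.Surjective π → ∀ (ℓ : ℕ) [Fact ℓ.Prime] [CharP F ℓ]
  (Γ : Type) [Group Γ] [Fintype Γ] (Y U D : Subgroup Γ), NIn Y U → ∀ R : Finset Γ, Tv R Y U →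
  ∀ ξ ∈ IrrS Y, GB π Y U ξ = U → Sta π U Y ξ → ∀ χ ∈ IrrS U, Over χ ξ →
  DefH ℓ U (lam π χ) D → D ≤ Y → ∀ zz zz' : Γ → MonoidAlgebra F Γ, Du π ξ Y R zz zz' →
  (∀ c ∈ ZA F U Y, ∀ c' ∈ ZA F U Y, ∑ v ∈ R, TT π R χ (zz v * c * zz' v * c') =
    TT π R χ c * TT π R χ c') ∧
  ∃ ρ : F, ρ ≠ 0 ∧ ∀ c ∈ ZA F U Y, ∀ c' ∈ ZA F U Y,
    ∑ v ∈ R, TT π R χ (c * zz' v) * TT π R χ (zz v * c') = ρ * TT π R χ (c * c')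

/-- UQ: at most one character of the block above `ξ` -/
def T_UQ : Prop := ∀ (F : Type) [Field F] (π : integralClosure ℤ ℂ →+* F),
  Function.Surjective π → ∀ (ℓ : ℕ) [Fact ℓ.Prime] [CharP F ℓ]
  (Γ : Type) [Group Γ] [Fintype Γ] (Y U D : Subgroup Γ), NIn Y U →
  ∀ ξ ∈ IrrS Y, GB π Y U ξ = U → Sta π U Y ξ → ∀ χ ∈ IrrS U, Over χ ξ →
  DefH ℓ U (lam π χ) D → D ≤ Y → ∀ χ' ∈ IrrS U, Over χ' ξ → Blk π U χ χ' → χ' = χ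

/-- EI: every character of `β` lies below some character of the block -/
def T_EI : Prop := ∀ (F : Type) [Field F] (π : integralClosure ℤ ℂ →+* F),
  Function.Surjective π → ∀ (ℓ : ℕ) [Fact ℓ.Prime] [CharP F ℓ]
  (Γ : Type) [Group Γ] [Fintype Γ] (Y U : Subgroup Γ), NIn Y U →
  ∀ ξ ∈ IrrS Y, GB π Y U ξ = U → Sta π U Y ξ → ∀ χ ∈ IrrS U, Over χ ξ →
  ∀ ξ' ∈ IrrS Y, Blk π Y ξ ξ' → ∃ χ' ∈ IrrS U, Over χ' ξ' ∧ Blk π U χ χ'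

/-- BI: block idempotents -/
def T_BI : Prop := ∀ (F : Type) [Field F] (π : integralClosure ℤ ℂ →+* F),
  Function.Surjective π → ∀ (ℓ : ℕ) [Fact ℓ.Prime] [CharP F ℓ]
  (Γ : Type) [Group Γ] [Fintype Γ] (N : Subgroup Γ), ∀ χ ∈ IrrS N,
  ∃ e ∈ ZA F N N, e * e = e ∧ lam π χ e = 1 ∧
    (∀ χ' ∈ IrrS N, ¬ Blk π N χ χ' → lam π χ' e = 0) ∧
    (∀ z ∈ ZA F N N, lam π χ z = 0 → ∃ k : ℕ, (e * z) ^ k = 0) ∧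
    (∀ u : Γ, Nm u N → Blk π N χ (cj u χ) → cn u e = e) ∧
    ∀ x, e.coeff x ≠ 0 → ¬ ℓ ∣ orderOf x

/-- DE: the bijection between `β` and the block of `χ` -/
def T_DE : Prop := ∀ (F : Type) [Field F] (π : integralClosure ℤ ℂ →+* F),
  Function.Surjective π → ∀ (ℓ : ℕ) [Fact ℓ.Prime] [CharP F ℓ]
  (Γ : Type) [Group Γ] [Fintype Γ] (Y U D : Subgroup Γ), NIn Y U →
  ∀ ξ ∈ IrrS Y, GB π Y U ξ = U → Sta π U Y ξ → ∀ χ ∈ IrrS U, Over χ ξ →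
  DefH ℓ U (lam π χ) D → D ≤ Y →
  ∃ f : (Γ → ℂ) → (Γ → ℂ),
    (∀ ξ' ∈ IrrS Y, Blk π Y ξ ξ' → f ξ' ∈ IrrS U ∧ Over (f ξ') ξ' ∧ Blk π U χ (f ξ') ∧
      (∀ χ' ∈ IrrS U, Over χ' ξ' → Blk π U χ χ' → χ' = f ξ') ∧
      (f ξ' ∈ K0H π ℓ U χ D ↔ ξ' ∈ K0H π ℓ Y ξ D) ∧
      (∀ y ∈ Y, f ξ' y * ξ' 1 = ξ' y * f ξ' 1) ∧
      (∀ ξ'' ∈ IrrS Y, Over (f ξ') ξ'' → ξ'' = ξ') ∧
      ∀ g : Γ, Nm g Y → Nm g U → Blk π U χ (cj g χ) → cj g (f ξ') = f (cj g ξ')) ∧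
    (∀ χ' ∈ IrrS U, Blk π U χ χ' → ∃ ξ' ∈ IrrS Y, Blk π Y ξ ξ' ∧ χ' = f ξ')

/-- KE: existence and properties of `κ` and `C` -/
def T_KE : Prop := ∀ (F : Type) [Field F] (π : integralClosure ℤ ℂ →+* F),
  Function.Surjective π → ∀ (ℓ : ℕ) [Fact ℓ.Prime] [CharP F ℓ]
  (Γ : Type) [Group Γ] [Fintype Γ] (K : Subgroup Γ), ∀ ξ ∈ IrrS K, ∀ x y : Γ,
  Nm x K → Nm y K → cj x ξ = ξ → cj y ξ = ξ →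
  (x * y * x⁻¹ * y⁻¹ ∈ K → ∃ κ : ℂ, Kp K ξ x y κ ∧ (∀ κ', Kp K ξ x y κ' → κ' = κ) ∧
    kp K ξ x y = κ ∧ (∀ n : ℕ, x ^ n ∈ K → κ ^ n = 1) ∧ (∀ n : ℕ, y ^ n ∈ K → κ ^ n = 1) ∧
    (∀ k ∈ K, Kp K ξ (x * k) y κ ∧ Kp K ξ (k * x) y κ ∧ Kp K ξ x (y * k) κ ∧
      Kp K ξ x (k * y) κ) ∧
    Kp K ξ y x κ⁻¹ ∧
    (∀ w : Γ, Nm w K → cj w ξ = ξ → w * y * w⁻¹ * y⁻¹ ∈ K → ∀ κ₂, Kp K ξ w y κ₂ →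
      Kp K ξ (x * w) y (κ * κ₂))) ∧
  (∀ z ∈ VS F K (x * y * x⁻¹ * y⁻¹), ∃ c : F, Cb π K ξ x y z c ∧
    (∀ c', Cb π K ξ x y z c' → c' = c) ∧ cb π K ξ x y z = c ∧
    (c ≠ 0 ↔ lam π ξ (z ^ Fintype.card Γ) ≠ 0)) ∧
  (∀ z' ∈ VS ℂ K (x * y * x⁻¹ * y⁻¹), (∀ g, IsIntegral ℤ (z'.coeff g)) →
    ∃ c' : ℂ, IsIntegral ℤ c' ∧ Cc K ξ x y z' c' ∧ ∀ c'', Cc K ξ x y z' c'' → c'' = c')

/-- KC: the congruence between `κ` and `C` -/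
def T_KC : Prop := ∀ (F : Type) [Field F] (π : integralClosure ℤ ℂ →+* F),
  Function.Surjective π → ∀ (ℓ : ℕ) [Fact ℓ.Prime] [CharP F ℓ]
  (Γ : Type) [Group Γ] [Fintype Γ] (Y U D : Subgroup Γ), NIn Y U → ∀ R : Finset Γ, Tv R Y U →
  ∀ ξ ∈ IrrS Y, GB π Y U ξ = U → Sta π U Y ξ → ∀ χ ∈ IrrS U, Over χ ξ →
  DefH ℓ U (lam π χ) D → D ≤ Y → ∀ zz zz' : Γ → MonoidAlgebra F Γ, Du π ξ Y R zz zz' →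
  ∀ x y : Γ, Nm x Y → Nm y Y → Nm x U → Nm y U → x * y * x⁻¹ * y⁻¹ ∈ U →
  cj x ξ = ξ → cj y ξ = ξ → cj x χ = χ → cj y χ = χ →
  ∀ z ∈ VS F Y (x * y * x⁻¹ * y⁻¹), lam π ξ (z ^ Fintype.card Γ) ≠ 0 →
  ∀ κ : ℂ, Kp U χ x y κ → ∀ c : F, Cb π Y ξ x y z c →
  ∀ b ∈ ZA F U Y, ∀ d ∈ ZA F U Y,
    rd π κ * c * ∑ v ∈ R, TT π R χ (zz v * b * cn y (zz' v) * d) =
      ∑ v ∈ R, TT π R χ (zz v * cn x b * z * cn y (zz' v) * d)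

/-- NV: nonvanishing -/
def T_NV : Prop := ∀ (F : Type) [Field F] (π : integralClosure ℤ ℂ →+* F),
  Function.Surjective π → ∀ (ℓ : ℕ) [Fact ℓ.Prime] [CharP F ℓ]
  (Γ : Type) [Group Γ] [Fintype Γ] (Y U D : Subgroup Γ), NIn Y U → ∀ R : Finset Γ, Tv R Y U →
  ∀ ξ ∈ IrrS Y, GB π Y U ξ = U → Sta π U Y ξ → ∀ χ ∈ IrrS U, Over χ ξ →
  DefH ℓ U (lam π χ) D → D ≤ Y → ∀ zz zz' : Γ → MonoidAlgebra F Γ, Du π ξ Y R zz zz' →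
  ∀ y : Γ, Nm y Y → Nm y U → Blk π U χ (cj y χ) →
  ∃ b ∈ ZA F U Y, ∃ d ∈ ZA F U Y,
    ∑ v ∈ R, TT π R χ (zz v * b * cn y (zz' v) * d) ≠ 0

/-- DU: existence of dual systems -/
def T_DU : Prop := ∀ (F : Type) [Field F] (π : integralClosure ℤ ℂ →+* F),
  Function.Surjective π → ∀ (ℓ : ℕ) [Fact ℓ.Prime] [CharP F ℓ]
  (Γ : Type) [Group Γ] [Fintype Γ] (Y U : Subgroup Γ), NIn Y U → ∀ R : Finset Γ, Tv R Y U →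
  ∀ ξ ∈ IrrS Y, GB π Y U ξ = U → Sta π U Y ξ →
  ∃ zz zz' : Γ → MonoidAlgebra F Γ, Du π ξ Y R zz zz'

/-! ## F. The counting formula -/

/-- MF: the number of characters above a set of characters of a normal subgroup -/
def T_MF : Prop := ∀ (Γ : Type) [Group Γ] [Fintype Γ] (N G : Subgroup Γ), NIn N G →
  ∀ A : Set (Γ → ℂ), (∀ θ ∈ A, θ ∈ IrrS N) → (∀ θ ∈ A, ∀ g ∈ G, cj g θ ∈ A) →
  ∀ R : Finset Γ, Tv R N G →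
  ((Abv G A).ncard : ℂ) * (N.relIndex G : ℂ) =
    ∑ x ∈ R, ∑ y ∈ R, if x * y * x⁻¹ * y⁻¹ ∈ N then
      ∑ᶠ χ ∈ {χ | χ ∈ A ∧ cj x χ = χ ∧ cj y χ = χ}, kp N χ x y else 0

/-- TM: the Teichmüller lift -/
def T_TM : Prop := ∀ (F : Type) [Field F] (π : integralClosure ℤ ℂ →+* F),
  Function.Surjective π → ∀ (ℓ : ℕ) [Fact ℓ.Prime] [CharP F ℓ],
  (∀ a : F, a ≠ 0 → rd π (Te π ℓ a) = a ∧ Te π ℓ a ≠ 0 ∧ (∃ r : ℕ, ¬ ℓ ∣ r ∧ Te π ℓ a ^ r = 1) ∧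
    conj (Te π ℓ a) = (Te π ℓ a)⁻¹ ∧ Te π ℓ a⁻¹ = (Te π ℓ a)⁻¹) ∧
  (∀ a b : F, a ≠ 0 → b ≠ 0 → Te π ℓ (a * b) = Te π ℓ a * Te π ℓ b) ∧
  Te π ℓ (1 : F) = 1 ∧
  (∀ (ζ : ℂ) (r : ℕ), ¬ ℓ ∣ r → ζ ^ r = 1 → IsIntegral ℤ ζ ∧ rd π ζ ≠ 0 ∧
    Te π ℓ (rd π ζ) = ζ) ∧
  (∀ (ζ : ℂ) (k : ℕ), ζ ^ ℓ ^ k = 1 → IsIntegral ℤ ζ ∧ rd π ζ = 1)

/-- the standing data of the counting formula -/
structure TD {F : Type} [Field F] (π : integralClosure ℤ ℂ →+* F) (ℓ : ℕ) {Γ : Type} [Group Γ]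
    [Fintype Γ] (G Y D Z : Subgroup Γ) (ν ξ ξ' χ ψ χ₁ : Γ → ℂ) : Prop where
  nin : NIn Y G
  cen : Cen G Z ν
  ZY : Z ≤ Y
  irr : ξ ∈ IrrS Y
  sta : Sta π G Y ξ
  irχ : χ ∈ IrrS G
  ov : Over χ ξ
  def' : DefH ℓ G (lam π χ) D
  DY : D ≤ Y
  ir1 : χ₁ ∈ IrrS (GB π Y G ξ)
  ov1 : Over χ χ₁
  st1 : Sta π G (GB π Y G ξ) χ₁
  irr' : ξ' ∈ IrrS (Y ⊓ Subgroup.normalizer (D : Set Γ))
  cor : Cor π Y D ξ ξ'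
  irψ : ψ ∈ IrrS (G ⊓ Subgroup.normalizer (D : Set Γ))
  corG : Cor π G D χ ψ

/-- `z x y` is a unit in `VS F Y [x, y]` for the pairs of members of `R` commuting modulo
`U = G[β]` -/
def Zs {F : Type} [Field F] (π : integralClosure ℤ ℂ →+* F) {Γ : Type} [Group Γ]
    [Fintype Γ] (Y U : Subgroup Γ) (ξ : Γ → ℂ) (R : Finset Γ)
    (z : Γ → Γ → MonoidAlgebra F Γ) : Prop :=
  ∀ x ∈ R, ∀ y ∈ R, x * y * x⁻¹ * y⁻¹ ∈ U →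
    z x y ∈ VS F Y (x * y * x⁻¹ * y⁻¹) ∧ lam π ξ (z x y ^ Fintype.card Γ) ≠ 0

/-- `σ x y` is the common value of `κ C` for the pairs of members of `R` commuting modulo
`U = G[β]`; `χ₁` is a character of `U` -/
def Sg {F : Type} [Field F] (π : integralClosure ℤ ℂ →+* F) {Γ : Type} [Group Γ]
    [Fintype Γ] (Y U : Subgroup Γ) (ξ χ₁ : Γ → ℂ) (R : Finset Γ)
    (z : Γ → Γ → MonoidAlgebra F Γ) (σ : Γ → Γ → F) : Prop :=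
  ∀ x ∈ R, ∀ y ∈ R, x * y * x⁻¹ * y⁻¹ ∈ U → σ x y ≠ 0 ∧
    ∀ ξ₂ ∈ IrrS Y, Blk π Y ξ ξ₂ → cj x ξ₂ = ξ₂ → cj y ξ₂ = ξ₂ → ∀ χ₂ ∈ IrrS U, Over χ₂ ξ₂ →
    Blk π U χ₁ χ₂ → ∀ κ, Kp U χ₂ x y κ → rd π κ * cb π Y ξ₂ x y (z x y) = σ x y

/-- CF: the counting formula -/
def T_CF : Prop := ∀ (F : Type) [Field F] (π : integralClosure ℤ ℂ →+* F),
  Function.Surjective π → ∀ (ℓ : ℕ) [Fact ℓ.Prime] [CharP F ℓ]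
  (Γ : Type) [Group Γ] [Fintype Γ] (G Y D Z : Subgroup Γ) (ν ξ χ χ₁ : Γ → ℂ),
  NIn Y G → Cen G Z ν → Z ≤ Y → ξ ∈ IrrS Y → Sta π G Y ξ → χ ∈ IrrS G →
  (∃ ξ₀ ∈ IrrS Y, Blk π Y ξ ξ₀ ∧ Over χ ξ₀) → DefH ℓ G (lam π χ) D → D ≤ Y →
  χ₁ ∈ IrrS (GB π Y G ξ) → (∃ χ₀ ∈ IrrS (GB π Y G ξ), Blk π (GB π Y G ξ) χ₁ χ₀ ∧ Over χ χ₀) →
  Sta π G (GB π Y G ξ) χ₁ →
  ∀ R : Finset Γ, Tv R (GB π Y G ξ) G →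
  ∀ z : Γ → Γ → MonoidAlgebra F Γ, Zs π Y (GB π Y G ξ) ξ R z →
  ∀ σ : Γ → Γ → F, Sg π Y (GB π Y G ξ) ξ χ₁ R z σ →
    ((K0N π ℓ G χ D Z ν).ncard : ℂ) * ((GB π Y G ξ).relIndex G : ℂ) =
      ∑ x ∈ R, ∑ y ∈ R, if x * y * x⁻¹ * y⁻¹ ∈ GB π Y G ξ then
        Te π ℓ (σ x y) * TS π ℓ Y (K0N π ℓ Y ξ D Z ν) x y (z x y) else 0

/-- SG: existence of `σ`, globally and locally -/
def T_SG : Prop := ∀ (F : Type) [Field F] (π : integralClosure ℤ ℂ →+* F),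
  Function.Surjective π → ∀ (ℓ : ℕ) [Fact ℓ.Prime] [CharP F ℓ]
  (Γ : Type) [Group Γ] [Fintype Γ] (G Y D : Subgroup Γ) (ξ ξ' χ₁ χ₁' : Γ → ℂ),
  NIn Y G → ξ ∈ IrrS Y → Sta π G Y ξ → DefH ℓ Y (lam π ξ) D → D ≤ Y →
  χ₁ ∈ IrrS (GB π Y G ξ) → (∃ ξ₀ ∈ IrrS Y, Blk π Y ξ ξ₀ ∧ Over χ₁ ξ₀) →
  Sta π G (GB π Y G ξ) χ₁ → DefH ℓ (GB π Y G ξ) (lam π χ₁) D →
  ξ' ∈ IrrS (Y ⊓ Subgroup.normalizer (D : Set Γ)) → Cor π Y D ξ ξ' →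
  χ₁' ∈ IrrS (GB π Y G ξ ⊓ Subgroup.normalizer (D : Set Γ)) →
  Cor π (GB π Y G ξ) D χ₁ χ₁' →
  ∀ R : Finset Γ, (∀ x ∈ R, x ∈ G ⊓ Subgroup.normalizer (D : Set Γ)) →
  ∀ z : Γ → Γ → MonoidAlgebra F Γ, Zs π Y (GB π Y G ξ) ξ R z →
  ∃ σ : Γ → Γ → F, Sg π Y (GB π Y G ξ) ξ χ₁ R z σ ∧
    Sg π (Y ⊓ Subgroup.normalizer (D : Set Γ)) (GB π Y G ξ ⊓ Subgroup.normalizer (D : Set Γ))
      ξ' χ₁' R (fun x y => br D (z x y)) σ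

/-- TF: the counting formula, globally and locally -/
def T_TF : Prop := ∀ (F : Type) [Field F] (π : integralClosure ℤ ℂ →+* F),
  Function.Surjective π → ∀ (ℓ : ℕ) [Fact ℓ.Prime] [CharP F ℓ]
  (Γ : Type) [Group Γ] [Fintype Γ] (G Y D Z : Subgroup Γ) (ν ξ ξ' χ ψ χ₁ χ₁' : Γ → ℂ),
  TD π ℓ G Y D Z ν ξ ξ' χ ψ χ₁ →
  χ₁' ∈ IrrS (GB π Y G ξ ⊓ Subgroup.normalizer (D : Set Γ)) →
  Cor π (GB π Y G ξ) D χ₁ χ₁' →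
  ∀ R : Finset Γ, Tv R (GB π Y G ξ ⊓ Subgroup.normalizer (D : Set Γ))
    (G ⊓ Subgroup.normalizer (D : Set Γ)) →
  ∀ z : Γ → Γ → MonoidAlgebra F Γ, Zs π Y (GB π Y G ξ) ξ R z →
  DefH ℓ Y (lam π ξ) D ∧ DefH ℓ (GB π Y G ξ) (lam π χ₁) D ∧ ¬ ℓ ∣ (GB π Y G ξ).relIndex G ∧
  Tv R (GB π Y G ξ) G ∧
  ∃ σ : Γ → Γ → F, Sg π Y (GB π Y G ξ) ξ χ₁ R z σ ∧
    Sg π (Y ⊓ Subgroup.normalizer (D : Set Γ)) (GB π Y G ξ ⊓ Subgroup.normalizer (D : Set Γ))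
      ξ' χ₁' R (fun x y => br D (z x y)) σ ∧
    ((K0N π ℓ G χ D Z ν).ncard : ℂ) * ((GB π Y G ξ).relIndex G : ℂ) =
      (∑ x ∈ R, ∑ y ∈ R, if x * y * x⁻¹ * y⁻¹ ∈ GB π Y G ξ then
        Te π ℓ (σ x y) * TS π ℓ Y (K0N π ℓ Y ξ D Z ν) x y (z x y) else 0) ∧
    ((K0N π ℓ (G ⊓ Subgroup.normalizer (D : Set Γ)) ψ D Z ν).ncard : ℂ) *
        ((GB π Y G ξ).relIndex G : ℂ) =
      (∑ x ∈ R, ∑ y ∈ R, if x * y * x⁻¹ * y⁻¹ ∈ GB π Y G ξ then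
        Te π ℓ (σ x y) * TS π ℓ (Y ⊓ Subgroup.normalizer (D : Set Γ))
          (K0N π ℓ (Y ⊓ Subgroup.normalizer (D : Set Γ)) ξ' D Z ν) x y (br D (z x y)) else 0)

end AMt
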