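import Pool.Agent.H10.T2.Targets2

/-!
# Alperin–McKay, reduction to almost simple groups: targets, part 3
(central extensions, equality of `T`-sums for groups `J` with `J / Y` of order prime to `ℓ`)
-/

open scoped Classical ComplexConjugate

namespace AMt

open AMc AMe

/-! ## H. Central extensions -/

/-- `H` is a central extension of `J` with a splitting `i` over the normal subgroup `Y`; `ε` is a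
faithful linear character of the kernel -/
structure CE {Γ : Type} [Group Γ] (Y J : Subgroup Γ) {H : Type} [Group H]
    (p : H →* Γ) (i : Y →* H) (ε : H → ℂ) : Prop where
  nin : NIn Y J
  rng : p.range = J
  pi : ∀ y, p (i y) = y
  cjk : ∀ a y, ∃ y', i y' = a * i y * a⁻¹
  kerp : ∀ z, p z = 1 → ∀ a, z * a = a * z
  one : ε 1 = 1
  mul : ∀ z w, p z = 1 → p w = 1 → ε (z * w) = ε z * ε w
  fai : ∀ z, p z = 1 → ε z = 1 → z = 1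

/-- the extension of a function `ξ` on (a subgroup of) `Y` to the preimage in `H`: `ξ × ε` -/
noncomputable def ht {Γ : Type} [Group Γ] {Y : Subgroup Γ} {H : Type} [Group H]
    (p : H →* Γ) (i : Y →* H) (ε : H → ℂ) (ξ : Γ → ℂ) : H → ℂ :=
  fun a => if h : p a ∈ Y then ξ (p a) * ε (a * (i ⟨p a, h⟩)⁻¹) else 0

/-- the part of `z` on the coset `p(a) Y`, lifted to the coset `a i(Y)` -/
noncomputable def hz {R : Type} [CommRing R] {Γ : Type} [Group Γ] {Y : Subgroup Γ} [Fintype Y]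
    {H : Type} [Group H] (p : H →* Γ) (i : Y →* H) (a : H) (z : MonoidAlgebra R Γ) :
    MonoidAlgebra R H :=
  ∑ k : Y, MonoidAlgebra.single (a * i k) (z.coeff (p a * k))

/-- the `ℓ`-subgroup of `H` over the `ℓ`-subgroup `D` of `Y` (product of `i(D)` and of the Sylow
`ℓ`-subgroup of the kernel) -/
def hD {Γ : Type} [Group Γ] {H : Type} [Group H] (p : H →* Γ) (ℓ : ℕ) (D : Subgroup Γ) :
    Subgroup H :=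
  Subgroup.closure {a | p a ∈ D ∧ ∃ k : ℕ, orderOf a = ℓ ^ k}

/-- H0: group theory of central extensions -/
def T_H0 : Prop := ∀ (ℓ : ℕ) [Fact ℓ.Prime] (Γ : Type) [Group Γ] [Fintype Γ] (Y J : Subgroup Γ)
  (H : Type) [Group H] [Fintype H] (p : H →* Γ) (i : Y →* H) (ε : H → ℂ), CE Y J p i ε →
  (∀ D : Subgroup Γ, IsPGroup ℓ D → D ≤ Y →
    (∀ a, a ∈ hD p ℓ D ↔ p a ∈ D ∧ ∃ k : ℕ, orderOf a = ℓ ^ k) ∧ IsPGroup ℓ (hD p ℓ D) ∧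
    (∀ d : Y, (d : Γ) ∈ D → i d ∈ hD p ℓ D) ∧
    (∀ a, a ∈ Subgroup.normalizer (hD p ℓ D : Set H) ↔
      p a ∈ Subgroup.normalizer (D : Set Γ)) ∧
    (∀ a, a ∈ Subgroup.centralizer (hD p ℓ D : Set H) ↔
      p a ∈ Subgroup.centralizer (D : Set Γ)) ∧
    (∀ N : Subgroup Γ, D ≤ N → N ≤ J → padicValNat ℓ ((hD p ℓ D).relIndex (N.comap p)) =
      padicValNat ℓ (D.relIndex N)) ∧
    ∀ 𝓓 : (D : Type) → [Group D] → Prop, Cl ℓ 𝓓 → 𝓓 D → 𝓓 (hD p ℓ D)) ∧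
  (∀ N U : Subgroup Γ, N ≤ U → U ≤ J → (N.comap p).relIndex (U.comap p) = N.relIndex U) ∧
  (∀ (a : H) (y y' : Y), (y' : Γ) = p a * y * (p a)⁻¹ → i y' = a * i y * a⁻¹) ∧
  (∀ Z : Subgroup Γ, ∀ ν : Γ → ℂ, Z ≤ Y → Cen J Z ν → Cen ⊤ (Z.comap p) (ht p i ε ν)) ∧
  (∀ N U : Subgroup Γ, U ≤ J → NIn N U → NIn (N.comap p) (U.comap p))

/-- H1: characters -/
def T_H1 : Prop := ∀ (Γ : Type) [Group Γ] [Fintype Γ] (Y J : Subgroup Γ)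
  (H : Type) [Group H] [Fintype H] (p : H →* Γ) (i : Y →* H) (ε : H → ℂ), CE Y J p i ε →
  (∀ N : Subgroup Γ, N ≤ Y → (∀ ξ ∈ IrrS N, ht p i ε ξ ∈ IrrS (N.comap p)) ∧
    (∀ η ∈ IrrS (N.comap p), (∀ z, p z = 1 → η z = ε z * η 1) →
      ∃ ξ ∈ IrrS N, ht p i ε ξ = η) ∧
    (∀ ξ ∈ IrrS N, ∀ ξ' ∈ IrrS N, ht p i ε ξ = ht p i ε ξ' → ξ = ξ')) ∧
  (∀ ξ : Γ → ℂ, (∀ y : Y, ht p i ε ξ (i y) = ξ y) ∧ ht p i ε ξ 1 = ξ 1 ∧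
    (∀ z, p z = 1 → ∀ a, ht p i ε ξ (z * a) = ε z * ht p i ε ξ a) ∧
    ∀ a, cj a (ht p i ε ξ) = ht p i ε (cj (p a) ξ)) ∧
  (∀ N N' : Subgroup Γ, N' ≤ N → N ≤ Y → ∀ ξ ∈ IrrS N, ∀ ξ' ∈ IrrS N',
    (Over (ht p i ε ξ) (ht p i ε ξ') ↔ Over ξ ξ'))

/-- H2: blocks and defect groups -/
def T_H2 : Prop := ∀ (F : Type) [Field F] (π : integralClosure ℤ ℂ →+* F),
  Function.Surjective π → ∀ (ℓ : ℕ) [Fact ℓ.Prime] [CharP F ℓ]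
  (Γ : Type) [Group Γ] [Fintype Γ] (Y J : Subgroup Γ)
  (H : Type) [Group H] [Fintype H] (p : H →* Γ) (i : Y →* H) (ε : H → ℂ), CE Y J p i ε →
  ∀ N : Subgroup Γ, N ≤ Y →
  (∀ ξ ∈ IrrS N, ∀ ξ' ∈ IrrS N,
    (Blk π (N.comap p) (ht p i ε ξ) (ht p i ε ξ') ↔ Blk π N ξ ξ')) ∧
  (∀ ξ ∈ IrrS N, ∀ D : Subgroup Γ, DefH ℓ N (lam π ξ) D →
    DefH ℓ (N.comap p) (lam π (ht p i ε ξ)) (hD p ℓ D)) ∧
  (∀ ξ ∈ IrrS N, ∀ η ∈ IrrS (N.comap p), Blk π (N.comap p) (ht p i ε ξ) η →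
    (∀ z, p z = 1 → ¬ ℓ ∣ orderOf z → η z = ε z * η 1)) ∧
  (∀ ξ ∈ IrrS N, ∀ D : Subgroup Γ, IsPGroup ℓ D → D ≤ N → ∀ Z : Subgroup Γ, ∀ ν : Γ → ℂ,
    Z ≤ N → Cen J Z ν →
    K0N π ℓ (N.comap p) (ht p i ε ξ) (hD p ℓ D) (Z.comap p) (ht p i ε ν) =
      (ht p i ε) '' (K0N π ℓ N ξ D Z ν))

/-- H3: the group algebra -/
def T_H3 : Prop := ∀ (F : Type) [Field F] (π : integralClosure ℤ ℂ →+* F),
  Function.Surjective π → ∀ (ℓ : ℕ) [Fact ℓ.Prime] [CharP F ℓ]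
  (Γ : Type) [Group Γ] [Fintype Γ] (Y J : Subgroup Γ)
  (H : Type) [Group H] [Fintype H] (p : H →* Γ) (i : Y →* H) (ε : H → ℂ), CE Y J p i ε →
  (∀ (a : H), ∀ z ∈ VS F Y (p a), hz p i a z ∈ VS F (Y.comap p) a ∧
    ∀ ξ ∈ IrrS Y, (lam π (ht p i ε ξ) (hz p i a z ^ Fintype.card H) ≠ 0 ↔
      lam π ξ (z ^ Fintype.card Γ) ≠ 0)) ∧
  (∀ ξ ∈ IrrS Y, Sta π J Y ξ → Sta π ⊤ (Y.comap p) (ht p i ε ξ) ∧
    GB π (Y.comap p) ⊤ (ht p i ε ξ) = (GB π Y J ξ).comap p) ∧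
  (∀ N : Subgroup Γ, N ≤ Y → ∀ ξ ∈ IrrS N, ∀ a b : H, Nm (p a) N → Nm (p b) N →
    cj (p a) ξ = ξ → cj (p b) ξ = ξ →
    ∀ z ∈ VS F N (p (a * b * a⁻¹ * b⁻¹)),
    cb π (N.comap p) (ht p i ε ξ) a b (hz p i (a * b * a⁻¹ * b⁻¹) z) =
      cb π N ξ (p a) (p b) z) ∧
  (∀ D : Subgroup Γ, IsPGroup ℓ D → D ≤ Y →
    (∀ a : H, ∀ z : MonoidAlgebra F Γ, br (hD p ℓ D) (hz p i a z) = hz p i a (br D z)) ∧
    ∀ ξ ∈ IrrS Y, ∀ ξ' ∈ IrrS (Y ⊓ Subgroup.normalizer (D : Set Γ)), Cor π Y D ξ ξ' →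
      Cor π (Y.comap p) (hD p ℓ D) (ht p i ε ξ) (ht p i ε ξ'))

/-- H5: equality of the `T`-sums -/
def T_H5 : Prop := ∀ (F : Type) [Field F] (π : integralClosure ℤ ℂ →+* F),
  Function.Surjective π → ∀ (ℓ : ℕ) [Fact ℓ.Prime] [CharP F ℓ]
  (Γ : Type) [Group Γ] [Fintype Γ] (Y J : Subgroup Γ)
  (H : Type) [Group H] [Fintype H] (p : H →* Γ) (i : Y →* H) (ε : H → ℂ), CE Y J p i ε →
  ∀ (N D Z : Subgroup Γ) (ν : Γ → ℂ), N ≤ Y → IsPGroup ℓ D → D ≤ N → Z ≤ N → Cen J Z ν →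
  ∀ ξ ∈ IrrS N, ∀ a b : H, Nm (p a) N → Nm (p b) N →
  ∀ z ∈ VS F N (p (a * b * a⁻¹ * b⁻¹)),
  TS π ℓ (N.comap p) (K0N π ℓ (N.comap p) (ht p i ε ξ) (hD p ℓ D) (Z.comap p) (ht p i ε ν))
    a b (hz p i (a * b * a⁻¹ * b⁻¹) z) =
  TS π ℓ N (K0N π ℓ N ξ D Z ν) (p a) (p b) z

/-- KX: `κ = 1` for characters which extend -/
def T_KX : Prop := ∀ (Γ : Type) [Group Γ] [Fintype Γ] (N G : Subgroup Γ), NIn N G →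
  ∀ χ ∈ IrrS N, ∀ τ ∈ IrrS G, (∀ g ∈ N, τ g = χ g) →
  ∀ x ∈ G, ∀ y ∈ G, x * y * x⁻¹ * y⁻¹ ∈ N → Kp N χ x y 1

/-- FP: a central extension of `J` from a triple for `J ⊓ N(D)` -/
def T_FP : Prop := ∀ (Γ : Type) [Group Γ] [Fintype Γ] (Y J J' : Subgroup Γ), NIn Y J →
  J' ≤ J → (∀ g ∈ J, ∃ y ∈ Y, y * g ∈ J') → ∀ (θ : Γ → ℂ)
  (H' : Type) [Group H'] [Fintype H'] (p' : H' →* Γ) (i' : (Y ⊓ J' : Subgroup Γ) →* H')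
  (τ' : H' → ℂ), Trp (Y ⊓ J') J' θ p' i' τ' →
  ∃ (H : Type) (_ : Group H) (_ : Fintype H) (p : H →* Γ) (i : Y →* H) (ε : H → ℂ)
    (j : H' →* H), CE Y J p i ε ∧ Function.Injective j ∧ (∀ b, p (j b) = p' b) ∧
    (∀ (y : (Y ⊓ J' : Subgroup Γ)) (y' : Y), (y' : Γ) = y → j (i' y) = i y') ∧
    (∀ a, p a ∈ J' → ∃ b, j b = a) ∧ (∀ z, p' z = 1 → ε (j z) = τ' z / τ' 1)

/-! ## R. The main identity for a reference character -/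

/-- the standing data: `J / Y` has order prime to `ℓ` -/
structure RD {F : Type} [Field F] (π : integralClosure ℤ ℂ →+* F) (ℓ : ℕ)
    (𝓓 : (D : Type) → [Group D] → Prop) (n : ℕ) {Γ : Type} [Group Γ]
    [Fintype Γ] (J Y D Z : Subgroup Γ) (ν ξ ξ' : Γ → ℂ) : Prop where
  am : AMn π ℓ 𝓓 n
  cl : Cl ℓ 𝓓
  nin : NIn Y J
  cop : ¬ ℓ ∣ Y.relIndex J
  cen : Cen J Z ν
  ZY : Z ≤ Y
  idx : Z.relIndex J ≤ n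
  irr : ξ ∈ IrrS Y
  sta : Sta π J Y ξ
  def' : DefH ℓ Y (lam π ξ) D
  cls : 𝓓 D
  irr' : ξ' ∈ IrrS (Y ⊓ Subgroup.normalizer (D : Set Γ))
  cor : Cor π Y D ξ ξ'

/-- R1: global reference -/
def T_R1 : Prop := ∀ (F : Type) [Field F] (π : integralClosure ℤ ℂ →+* F),
  Function.Surjective π → ∀ (ℓ : ℕ) [Fact ℓ.Prime] [CharP F ℓ]
  (𝓓 : (D : Type) → [Group D] → Prop) (n : ℕ) (Γ : Type) [Group Γ] [Fintype Γ]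
  (J Y D Z : Subgroup Γ) (ν ξ ξ' : Γ → ℂ), RD π ℓ 𝓓 n J Y D Z ν ξ ξ' →
  ∀ R : Finset Γ, Tv R (GB π Y J ξ ⊓ Subgroup.normalizer (D : Set Γ))
    (J ⊓ Subgroup.normalizer (D : Set Γ)) →
  ∀ z : Γ → Γ → MonoidAlgebra F Γ, Zs π Y (GB π Y J ξ) ξ R z →
  ∀ ξ₁ ∈ K0N π ℓ Y ξ D Z ν, (∀ g ∈ J, cj g ξ₁ = ξ₁) →
  ∑ x ∈ R, ∑ y ∈ R, (if x * y * x⁻¹ * y⁻¹ ∈ GB π Y J ξ then
    Te π ℓ (cb π Y ξ₁ x y (z x y)) *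
      (TS π ℓ Y (K0N π ℓ Y ξ D Z ν) x y (z x y) -
        TS π ℓ (Y ⊓ Subgroup.normalizer (D : Set Γ))
          (K0N π ℓ (Y ⊓ Subgroup.normalizer (D : Set Γ)) ξ' D Z ν) x y (br D (z x y)))
    else 0) = 0

/-- R2: local reference -/
def T_R2 : Prop := ∀ (F : Type) [Field F] (π : integralClosure ℤ ℂ →+* F),
  Function.Surjective π → ∀ (ℓ : ℕ) [Fact ℓ.Prime] [CharP F ℓ]
  (𝓓 : (D : Type) → [Group D] → Prop) (n : ℕ) (Γ : Type) [Group Γ] [Fintype Γ]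
  (J Y D Z : Subgroup Γ) (ν ξ ξ' : Γ → ℂ), RD π ℓ 𝓓 n J Y D Z ν ξ ξ' →
  ∀ R : Finset Γ, Tv R (GB π Y J ξ ⊓ Subgroup.normalizer (D : Set Γ))
    (J ⊓ Subgroup.normalizer (D : Set Γ)) →
  ∀ z : Γ → Γ → MonoidAlgebra F Γ, Zs π Y (GB π Y J ξ) ξ R z →
  ∀ ξ₁ ∈ K0N π ℓ (Y ⊓ Subgroup.normalizer (D : Set Γ)) ξ' D Z ν,
  (∀ g ∈ J ⊓ Subgroup.normalizer (D : Set Γ), cj g ξ₁ = ξ₁) →
  ∑ x ∈ R, ∑ y ∈ R, (if x * y * x⁻¹ * y⁻¹ ∈ GB π Y J ξ then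
    Te π ℓ (cb π (Y ⊓ Subgroup.normalizer (D : Set Γ)) ξ₁ x y (br D (z x y))) *
      (TS π ℓ Y (K0N π ℓ Y ξ D Z ν) x y (z x y) -
        TS π ℓ (Y ⊓ Subgroup.normalizer (D : Set Γ))
          (K0N π ℓ (Y ⊓ Subgroup.normalizer (D : Set Γ)) ξ' D Z ν) x y (br D (z x y)))
    else 0) = 0

/-- the equality of the `T`-sums at the pair `(x, y)` -/
def TEq {F : Type} [Field F] (π : integralClosure ℤ ℂ →+* F) (ℓ : ℕ) {Γ : Type} [Group Γ]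
    [Fintype Γ] (Y P D Z : Subgroup Γ) (ν ξ ξ' : Γ → ℂ) (x y : Γ) : Prop :=
  ∀ z ∈ VS F Y (x * y * x⁻¹ * y⁻¹), lam π ξ (z ^ Fintype.card Γ) ≠ 0 →
    TS π ℓ Y (K0N π ℓ Y ξ D Z ν) x y z =
      TS π ℓ (Y ⊓ Subgroup.normalizer (P : Set Γ))
        (K0N π ℓ (Y ⊓ Subgroup.normalizer (P : Set Γ)) ξ' D Z ν) x y (br P z)

/-- RC: change of representatives. `P` is any `ℓ`-subgroup of `D` -/
def T_RC : Prop := ∀ (F : Type) [Field F] (π : integralClosure ℤ ℂ →+* F),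
  Function.Surjective π → ∀ (ℓ : ℕ) [Fact ℓ.Prime] [CharP F ℓ]
  (Γ : Type) [Group Γ] [Fintype Γ] (G Y P D Z : Subgroup Γ) (ν ξ ξ' : Γ → ℂ),
  NIn Y G → ξ ∈ IrrS Y → Sta π G Y ξ → IsPGroup ℓ P → P ≤ Y →
  ξ' ∈ IrrS (Y ⊓ Subgroup.normalizer (P : Set Γ)) → Cor π Y P ξ ξ' →
  ∀ x ∈ G ⊓ Subgroup.normalizer (P : Set Γ), ∀ y ∈ G ⊓ Subgroup.normalizer (P : Set Γ),
  x * y * x⁻¹ * y⁻¹ ∈ GB π Y G ξ →
  (∀ g ∈ GB π Y G ξ ⊓ Subgroup.normalizer (P : Set Γ),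
    (TEq π ℓ Y P D Z ν ξ ξ' (x * g) y ↔ TEq π ℓ Y P D Z ν ξ ξ' x y) ∧
    (TEq π ℓ Y P D Z ν ξ ξ' x (y * g) ↔ TEq π ℓ Y P D Z ν ξ ξ' x y)) ∧
  (TEq π ℓ Y P D Z ν ξ ξ' (x * y) y ↔ TEq π ℓ Y P D Z ν ξ ξ' x y) ∧
  (TEq π ℓ Y P D Z ν ξ ξ' y⁻¹ x ↔ TEq π ℓ Y P D Z ν ξ ξ' x y) ∧
  ∀ z ∈ VS F Y (x * y * x⁻¹ * y⁻¹), lam π ξ (z ^ Fintype.card Γ) ≠ 0 →
    TS π ℓ Y (K0N π ℓ Y ξ D Z ν) x y z =
      TS π ℓ (Y ⊓ Subgroup.normalizer (P : Set Γ))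
        (K0N π ℓ (Y ⊓ Subgroup.normalizer (P : Set Γ)) ξ' D Z ν) x y (br P z) →
    TEq π ℓ Y P D Z ν ξ ξ' x y

/-- TT2: equality of the `T`-sums, for groups `J` with `J / Y` of order prime to `ℓ` -/
def T_TT2 : Prop := ∀ (F : Type) [Field F] (π : integralClosure ℤ ℂ →+* F),
  Function.Surjective π → ∀ (ℓ : ℕ) [Fact ℓ.Prime] [CharP F ℓ]
  (𝓓 : (D : Type) → [Group D] → Prop) (n : ℕ) (Γ : Type) [Group Γ] [Fintype Γ]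
  (J Y D Z : Subgroup Γ) (ν ξ ξ' : Γ → ℂ), RD π ℓ 𝓓 n J Y D Z ν ξ ξ' →
  ∀ x ∈ J ⊓ Subgroup.normalizer (D : Set Γ), ∀ y ∈ J ⊓ Subgroup.normalizer (D : Set Γ),
  x * y * x⁻¹ * y⁻¹ ∈ GB π Y J ξ →
  ∀ z ∈ VS F Y (x * y * x⁻¹ * y⁻¹), lam π ξ (z ^ Fintype.card Γ) ≠ 0 →
  TS π ℓ Y (K0N π ℓ Y ξ D Z ν) x y z =
    TS π ℓ (Y ⊓ Subgroup.normalizer (D : Set Γ))
      (K0N π ℓ (Y ⊓ Subgroup.normalizer (D : Set Γ)) ξ' D Z ν) x y (br D z)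

/-- JL: a subgroup of order prime to `ℓ` modulo `Y` -/
def T_JL : Prop := ∀ (ℓ : ℕ) [Fact ℓ.Prime] (Γ : Type) [Group Γ] [Fintype Γ]
  (Y U G : Subgroup Γ), NIn Y G → NIn U G → Y ≤ U → ¬ ℓ ∣ U.relIndex G →
  ∃ J : Subgroup Γ, Y ≤ J ∧ J ≤ G ∧ ¬ ℓ ∣ Y.relIndex J ∧ ∀ g ∈ G, ∃ u ∈ U, u * g ∈ J

end AMt
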