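import Pool.Agent.H10.T2.Targets4

/-!
# Alperin–McKay, reduction to almost simple groups: targets, part 5
(the theorem of Fong–Reynolds, the relative step)
-/

open scoped Classical ComplexConjugate

namespace AMt

open AMc AMe

/-! ## Y. Fong–Reynolds -/

/-- NI: nilpotency -/
def T_NI : Prop := ∀ (F : Type) [Field F] (π : integralClosure ℤ ℂ →+* F),
  Function.Surjective π → ∀ (Γ : Type) [Group Γ] [Fintype Γ] (K : Subgroup Γ),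
  ∀ a ∈ ZA F K K, (∀ θ ∈ IrrS K, lam π θ a = 0) → ∃ r : ℕ, a ^ r = 0

/-- LO: homomorphisms on `ZA F K X` come from characters of `K` -/
def T_LO : Prop := ∀ (F : Type) [Field F] (π : integralClosure ℤ ℂ →+* F),
  Function.Surjective π → ∀ (Γ : Type) [Group Γ] [Fintype Γ] (K X : Subgroup Γ), NIn K X →
  ∀ h : MonoidAlgebra F Γ → F, h 1 = 1 → (∀ z ∈ ZA F K X, ∀ w ∈ ZA F K X,
    h (z + w) = h z + h w ∧ h (z * w) = h z * h w ∧ ∀ c : F, h (c • z) = c * h z) →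
  ∃ θ ∈ IrrS K, ∀ z ∈ ZA F K X, h z = lam π θ z

/-- FB: the correspondence of Fong–Reynolds; `T` contains the stabiliser of the block of `ξ` -/
def T_FB : Prop := ∀ (F : Type) [Field F] (π : integralClosure ℤ ℂ →+* F),
  Function.Surjective π → ∀ (ℓ : ℕ) [Fact ℓ.Prime] [CharP F ℓ]
  (Γ : Type) [Group Γ] [Fintype Γ] (K G T : Subgroup Γ), NIn K G → K ≤ T → T ≤ G →
  ∀ ξ ∈ IrrS K, (∀ g ∈ G, Blk π K ξ (cj g ξ) → g ∈ T) →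
  (∀ ψ ∈ IrrS T, ∀ ξ₁ ∈ IrrS K, Blk π K ξ ξ₁ → Over ψ ξ₁ → ∃ χ ∈ IrrS G, Over χ ψ ∧
    (∀ χ' ∈ IrrS G, Over χ' ψ → χ' = χ) ∧ χ 1 = (T.relIndex G : ℂ) * ψ 1 ∧
    ∀ z ∈ ZA F G G, lam π χ z = lam π ψ (cst T 1 z)) ∧
  (∀ χ ∈ IrrS G, ∀ ξ₁ ∈ IrrS K, Blk π K ξ ξ₁ → Over χ ξ₁ → ∃ ψ ∈ IrrS T, Over ψ ξ₁ ∧
    Over χ ψ ∧ ∀ ψ' ∈ IrrS T, ∀ ξ₂ ∈ IrrS K, Blk π K ξ ξ₂ → Over ψ' ξ₂ → Over χ ψ' →
      ψ' = ψ) ∧
  (∀ ψ ∈ IrrS T, ∀ ψ' ∈ IrrS T, ∀ ξ₁ ∈ IrrS K, ∀ ξ₂ ∈ IrrS K, Blk π K ξ ξ₁ → Blk π K ξ ξ₂ →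
    Over ψ ξ₁ → Over ψ' ξ₂ → ∀ χ ∈ IrrS G, ∀ χ' ∈ IrrS G, Over χ ψ → Over χ' ψ' →
    (Blk π G χ χ' ↔ Blk π T ψ ψ')) ∧
  (∀ ψ ∈ IrrS T, ∀ ξ₁ ∈ IrrS K, Blk π K ξ ξ₁ → Over ψ ξ₁ → ∀ χ ∈ IrrS G, Over χ ψ →
    ∀ (D Z : Subgroup Γ) (ν : Γ → ℂ), D ≤ T → Cen G Z ν → Z ≤ K →
    (K0N π ℓ G χ D Z ν).ncard = (K0N π ℓ T ψ D Z ν).ncard)

/-- FR: the step of Fong–Reynolds -/
def T_FR : Prop := ∀ (F : Type) [Field F] (π : integralClosure ℤ ℂ →+* F),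
  Function.Surjective π → ∀ (ℓ : ℕ) [Fact ℓ.Prime] [CharP F ℓ]
  (𝓓 : (D : Type) → [Group D] → Prop) (n : ℕ) (Γ : Type) [Group Γ] [Fintype Γ]
  (G K D Z : Subgroup Γ) (ν χ ψ ξ : Γ → ℂ), AMn π ℓ 𝓓 n → 𝓓 D →
  NIn K G → Cen G Z ν → Z ≤ K → Z.relIndex G ≤ n + 1 → χ ∈ IrrS G → DefH ℓ G (lam π χ) D →
  ψ ∈ IrrS (G ⊓ Subgroup.normalizer (D : Set Γ)) → Cor π G D χ ψ → ξ ∈ IrrS K →
  Over χ ξ → ¬ Sta π G K ξ →
  (K0N π ℓ G χ D Z ν).ncard =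
    (K0N π ℓ (G ⊓ Subgroup.normalizer (D : Set Γ)) ψ D Z ν).ncard

/-! ## Q. The factor group of a character triple -/

/-- `Q = H / i(K)` with the central subgroup `Zs` (image of the kernel of `p`) and the linear
function `νs` on `Zs` -/
structure Qt {Γ : Type} [Group Γ] [Fintype Γ] (K U : Subgroup Γ) (θ : Γ → ℂ) {H : Type}
    [Group H] [Fintype H] (p : H →* Γ) (i : K →* H) (τ : H → ℂ) {Q : Type} [Group Q]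
    (q : H →* Q) (Zs : Subgroup Q) (νs : Q → ℂ) : Prop where
  trp : Trp K U θ p i τ
  sur : Function.Surjective q
  ker : ∀ a, q a = 1 ↔ ∃ k, i k = a
  zs : Zs = p.ker.map q
  nus : ∀ z, p z = 1 → νs (q z) * τ z = τ 1

/-- `ψ` (a character of `V` over `θ`) corresponds to `η` (a character of `V* ≤ Q`) -/
def Ql {Γ : Type} [Group Γ] (V : Subgroup Γ) {H : Type} [Group H] (p : H →* Γ) (τ : H → ℂ)
    {Q : Type} [Group Q] (q : H →* Q) (ψ : Γ → ℂ) (η : Q → ℂ) : Prop :=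
  ∀ a ∈ V.comap p, ψ (p a) = τ a * η (q a)

/-- the Sylow `ℓ`-subgroup of `E*` when `E / K` is an `ℓ`-group -/
def Qp {Γ : Type} [Group Γ] (ℓ : ℕ) {H : Type} [Group H] (p : H →* Γ)
    {Q : Type} [Group Q] (q : H →* Q) (E : Subgroup Γ) : Subgroup Q :=
  Subgroup.closure {b | b ∈ (E.comap p).map q ∧ ∃ k : ℕ, orderOf b = ℓ ^ k}

/-- QD: existence of the factor group -/
def T_QD : Prop := ∀ (Γ : Type) [Group Γ] [Fintype Γ] (K U : Subgroup Γ) (θ : Γ → ℂ)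
  (H : Type) [Group H] [Fintype H] (p : H →* Γ) (i : K →* H) (τ : H → ℂ), Trp K U θ p i τ →
  ∃ (Q : Type) (_ : Group Q) (_ : Fintype Q) (q : H →* Q) (Zs : Subgroup Q) (νs : Q → ℂ),
    Qt K U θ p i τ q Zs νs

/-- QE: correspondence of characters -/
def T_QE : Prop := ∀ (Γ : Type) [Group Γ] [Fintype Γ] (K U : Subgroup Γ) (θ : Γ → ℂ)
  (H : Type) [Group H] [Fintype H] (p : H →* Γ) (i : K →* H) (τ : H → ℂ)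
  (Q : Type) [Group Q] [Fintype Q] (q : H →* Q) (Zs : Subgroup Q) (νs : Q → ℂ),
  Qt K U θ p i τ q Zs νs → ∀ V : Subgroup Γ, K ≤ V → V ≤ U →
  Cen ((V.comap p).map q) Zs νs ∧
  (∀ ψ ∈ IrrS V, Over ψ θ → ∃ η ∈ IrrS ((V.comap p).map q), Ql V p τ q ψ η ∧
    (∀ z ∈ Zs, η z = νs z * η 1) ∧ ψ 1 = θ 1 * η 1) ∧
  (∀ η ∈ IrrS ((V.comap p).map q), (∀ z ∈ Zs, η z = νs z * η 1) → ∃ ψ ∈ IrrS V, Over ψ θ ∧
    Ql V p τ q ψ η) ∧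
  (∀ ψ ∈ IrrS V, ∀ ψ' ∈ IrrS V, ∀ η ∈ IrrS ((V.comap p).map q),
    ∀ η' ∈ IrrS ((V.comap p).map q), Ql V p τ q ψ η → Ql V p τ q ψ' η' →
    (ψ = ψ' ↔ η = η') ∧ Over ψ θ ∧ (∀ z ∈ Zs, η z = νs z * η 1) ∧ ψ 1 = θ 1 * η 1)

/-- QG: group theory of the factor group -/
def T_QG : Prop := ∀ (ℓ : ℕ) [Fact ℓ.Prime] (Γ : Type) [Group Γ] [Fintype Γ]
  (K U : Subgroup Γ) (θ : Γ → ℂ)
  (H : Type) [Group H] [Fintype H] (p : H →* Γ) (i : K →* H) (τ : H → ℂ)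
  (Q : Type) [Group Q] [Fintype Q] (q : H →* Q) (Zs : Subgroup Q) (νs : Q → ℂ),
  Qt K U θ p i τ q Zs νs →
  ((U.comap p).map q = ⊤) ∧ IsCyclic Zs ∧
  (∀ V : Subgroup Γ, K ≤ V → V ≤ U → Zs ≤ (V.comap p).map q ∧
    Zs.relIndex ((V.comap p).map q) = K.relIndex V ∧
    (∀ a, q a ∈ (V.comap p).map q ↔ p a ∈ V) ∧
    Nat.card ((V.comap p).map q) * Nat.card K = Nat.card V * Nat.card Zs) ∧
  (∀ E : Subgroup Γ, K ≤ E → E ≤ U → (∃ k, K.relIndex E = ℓ ^ k) →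
    IsPGroup ℓ (Qp ℓ p q E) ∧ Qp ℓ p q E ≤ (E.comap p).map q ∧
    (∀ b, b ∈ Qp ℓ p q E ↔ b ∈ (E.comap p).map q ∧ ∃ k : ℕ, orderOf b = ℓ ^ k) ∧
    padicValNat ℓ (Nat.card (Qp ℓ p q E)) =
      padicValNat ℓ (K.relIndex E) + padicValNat ℓ (Nat.card Zs) ∧
    (∀ V : Subgroup Γ, E ≤ V → V ≤ U →
      padicValNat ℓ ((Qp ℓ p q E).relIndex ((V.comap p).map q)) =
        padicValNat ℓ (E.relIndex V) ∧
      (V.comap p).map q ⊓ Subgroup.normalizer (Qp ℓ p q E : Set Q) =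
        ((V ⊓ Subgroup.normalizer (E : Set Γ)).comap p).map q) ∧
    (∀ a, (Qp ℓ p q E).map (MulAut.conj (q a)).toMonoidHom =
      Qp ℓ p q (E.map (MulAut.conj (p a)).toMonoidHom)) ∧
    (∀ E' : Subgroup Γ, K ≤ E' → E' ≤ U → (∃ k, K.relIndex E' = ℓ ^ k) →
      Qp ℓ p q E = Qp ℓ p q E' → E = E')) ∧
  (∀ a a' : H, (∃ b : Q, b * q a * b⁻¹ = q a') → p a ∈ U ∧ p a' ∈ U)

/-- the number of `k ∈ K` such that `a i(k)` is conjugate to `a` under `V.comap p` -/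
noncomputable def Tn {Γ : Type} [Group Γ] [Fintype Γ] {K : Subgroup Γ} (V : Subgroup Γ)
    {H : Type} [Group H] (p : H →* Γ) (i : K →* H) (a : H) : ℕ :=
  ((Finset.univ : Finset K).filter fun k => ∃ h ∈ V.comap p, h * a * h⁻¹ = a * i k).card

/-- QF: central characters -/
def T_QF : Prop := ∀ (F : Type) [Field F] (π : integralClosure ℤ ℂ →+* F),
  Function.Surjective π → ∀ (ℓ : ℕ) [Fact ℓ.Prime] [CharP F ℓ]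
  (Γ : Type) [Group Γ] [Fintype Γ] (K U : Subgroup Γ) (θ : Γ → ℂ)
  (H : Type) [Group H] [Fintype H] (p : H →* Γ) (i : K →* H) (τ : H → ℂ)
  (Q : Type) [Group Q] [Fintype Q] (q : H →* Q) (Zs : Subgroup Q) (νs : Q → ℂ),
  Qt K U θ p i τ q Zs νs → ∀ V : Subgroup Γ, K ≤ V → V ≤ U →
  (∀ a, IsIntegral ℤ ((Tn V p i a : ℂ) * τ a / θ 1)) ∧
  ∀ ψ ∈ IrrS V, ∀ η ∈ IrrS ((V.comap p).map q), Ql V p τ q ψ η →
  (∀ a ∈ V.comap p, lam π ψ (csum F (cls V (p a))) = rd π ((Tn V p i a : ℂ) * τ a / θ 1) *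
    lam π η (csum F (cls ((V.comap p).map q) (q a)))) ∧
  ∀ ψ' ∈ IrrS V, ∀ η' ∈ IrrS ((V.comap p).map q), Ql V p τ q ψ' η' →
    Blk π ((V.comap p).map q) η η' → Blk π V ψ ψ'

/-- QM: Brauer correspondence in the factor group gives block induction -/
def T_QM : Prop := ∀ (F : Type) [Field F] (π : integralClosure ℤ ℂ →+* F),
  Function.Surjective π → ∀ (ℓ : ℕ) [Fact ℓ.Prime] [CharP F ℓ]
  (Γ : Type) [Group Γ] [Fintype Γ] (K U : Subgroup Γ) (θ : Γ → ℂ)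
  (H : Type) [Group H] [Fintype H] (p : H →* Γ) (i : K →* H) (τ : H → ℂ)
  (Q : Type) [Group Q] [Fintype Q] (q : H →* Q) (Zs : Subgroup Q) (νs : Q → ℂ),
  Qt K U θ p i τ q Zs νs → ∀ E V : Subgroup Γ, K ≤ E → E ≤ U → (∃ k, K.relIndex E = ℓ ^ k) →
  V = U ⊓ Subgroup.normalizer (E : Set Γ) →
  ∀ ψ ∈ IrrS U, ∀ η ∈ IrrS (⊤ : Subgroup Q), Ql U p τ q ψ η →
  ∀ ψ₁ ∈ IrrS V, ∀ η₁ ∈ IrrS ((V.comap p).map q), Ql V p τ q ψ₁ η₁ →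
  Cor π ⊤ (Qp ℓ p q E) η η₁ → ∀ z ∈ ZA F U U, lam π ψ z = lam π ψ₁ (cst V 1 z)

/-- QJ: the inequality between defects. `D'` depends on `χ`, `θ`, `ψ` only, not on the triple -/
def T_QJ : Prop := ∀ (F : Type) [Field F] (π : integralClosure ℤ ℂ →+* F),
  Function.Surjective π → ∀ (ℓ : ℕ) [Fact ℓ.Prime] [CharP F ℓ]
  (Γ : Type) [Group Γ] [Fintype Γ] (K G D : Subgroup Γ), NIn K G → ∀ θ ∈ IrrS K,
  ∀ χ ∈ IrrS G, DefH ℓ G (lam π χ) D → ∀ ψ ∈ IrrS (stab G θ), Over ψ θ → Over χ ψ →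
  ∃ D' : Subgroup Γ, ∀ (U : Subgroup Γ) (H : Type) [Group H] [Fintype H] (p : H →* Γ) (i : K →* H) (τ : H → ℂ)
    (Q : Type) [Group Q] [Fintype Q] (q : H →* Q) (Zs : Subgroup Q) (νs : Q → ℂ),
    Qt K U θ p i τ q Zs νs → stab G θ ≤ U →
    ∀ η ∈ IrrS (((stab G θ).comap p).map q), Ql (stab G θ) p τ q ψ η →
    ∀ P : Subgroup Q, DefH ℓ (((stab G θ).comap p).map q) (lam π η) P →
    ∀ d : ℕ, θ 1 = d →
    padicValNat ℓ (Nat.card K) + padicValNat ℓ (Nat.card P) ≤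
      padicValNat ℓ (Nat.card D) + padicValNat ℓ d + padicValNat ℓ (Nat.card Zs) ∧
    (padicValNat ℓ (Nat.card K) + padicValNat ℓ (Nat.card P) =
      padicValNat ℓ (Nat.card D) + padicValNat ℓ d + padicValNat ℓ (Nat.card Zs) →
      D' ≤ stab G θ ∧ (∃ g ∈ G, D' = D.map (MulAut.conj g).toMonoidHom) ∧
      padicValNat ℓ d + padicValNat ℓ (Nat.card (D ⊓ K : Subgroup Γ)) =
        padicValNat ℓ (Nat.card K) ∧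
      ∃ w ∈ stab G θ, P = Qp ℓ p q ((D' ⊔ K).map (MulAut.conj w).toMonoidHom))

/-- HZ: characters of height zero and the derived subgroup of the defect group -/
def T_HZ : Prop := ∀ (F : Type) [Field F] (π : integralClosure ℤ ℂ →+* F),
  Function.Surjective π → ∀ (ℓ : ℕ) [Fact ℓ.Prime] [CharP F ℓ]
  (Γ : Type) [Group Γ] [Fintype Γ] (N D Z : Subgroup Γ) (ν : Γ → ℂ), Cen N Z ν →
  ∀ χ ∈ IrrS N, DefH ℓ N (lam π χ) D → (K0N π ℓ N χ D Z ν).Nonempty →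
  ∀ z ∈ ⁅D, D⁆, z ∈ Z → ν z = 1

/-- AB: the class of defect groups -/
def T_AB : Prop := ∀ (ℓ : ℕ) [Fact ℓ.Prime] (𝓓 : (D : Type) → [Group D] → Prop), Cl ℓ 𝓓 →
  (∀ (A : Type) [CommGroup A] [Finite A], IsPGroup ℓ A → 𝓓 A) ∧
  ∀ (P E : Type) [Group P] [Finite P] [Group E] (f : P →* E), IsPGroup ℓ P → 𝓓 E →
    (commutator P ⊓ f.ker = ⊥) → 𝓓 P

/-- QA: the relative equality for the factor group -/
def T_QA : Prop := ∀ (F : Type) [Field F] (π : integralClosure ℤ ℂ →+* F),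
  Function.Surjective π → ∀ (ℓ : ℕ) [Fact ℓ.Prime] [CharP F ℓ]
  (𝓓 : (D : Type) → [Group D] → Prop) (n : ℕ) (Γ : Type) [Group Γ] [Fintype Γ]
  (K U D : Subgroup Γ) (θ : Γ → ℂ)
  (H : Type) [Group H] [Fintype H] (p : H →* Γ) (i : K →* H) (τ : H → ℂ)
  (Q : Type) [Group Q] [Fintype Q] (q : H →* Q) (Zs : Subgroup Q) (νs : Q → ℂ),
  AMn π ℓ 𝓓 n → Cl ℓ 𝓓 → 𝓓 D → IsPGroup ℓ D → D ≤ U → Qt K U θ p i τ q Zs νs →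
  K.relIndex U ≤ n → ∀ η ∈ IrrS (⊤ : Subgroup Q), DefH ℓ ⊤ (lam π η) (Qp ℓ p q (D ⊔ K)) →
  ∀ η₁ ∈ IrrS ((⊤ : Subgroup Q) ⊓ Subgroup.normalizer (Qp ℓ p q (D ⊔ K) : Set Q)),
  Cor π ⊤ (Qp ℓ p q (D ⊔ K)) η η₁ →
  (K0N π ℓ ⊤ η (Qp ℓ p q (D ⊔ K)) Zs νs).ncard =
    (K0N π ℓ ((⊤ : Subgroup Q) ⊓ Subgroup.normalizer (Qp ℓ p q (D ⊔ K) : Set Q)) η₁
      (Qp ℓ p q (D ⊔ K)) Zs νs).ncard

/-! ## P. The relative step -/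

/-- PL: comparison of sets through the classes of equivalence relations -/
def T_PL : Prop := ∀ (A B : Type) (S : Set A) (T : Set B) (r : A → A → Prop) (s : B → B → Prop)
  (c : A → B → Prop), S.Finite → T.Finite → Equivalence r → Equivalence s →
  (∀ a ∈ S, ∃ b ∈ T, c a b) → (∀ b ∈ T, ∃ a ∈ S, c a b) →
  (∀ a ∈ S, ∀ a' ∈ S, ∀ b ∈ T, ∀ b' ∈ T, c a b → c a' b' → (r a a' ↔ s b b')) →
  (∀ a ∈ S, ∀ b ∈ T, c a b → {a' | a' ∈ S ∧ r a a'}.ncard = {b' | b' ∈ T ∧ s b b'}.ncard) →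
  S.ncard = T.ncard

/-- the block of the character of `Q` corresponding to `χ` and `θ` has the defect group
`Qp (D K)` -/
def Ad {F : Type} [Field F] (π : integralClosure ℤ ℂ →+* F) (ℓ : ℕ) {Γ : Type} [Group Γ]
    [Fintype Γ] (K G D : Subgroup Γ) (χ θ : Γ → ℂ) : Prop :=
  D ≤ stab G θ ∧ ∃ ψ ∈ IrrS (stab G θ), Over ψ θ ∧ Over χ ψ ∧
    ∃ (H : Type) (_ : Group H) (_ : Fintype H) (p : H →* Γ) (i : K →* H) (τ : H → ℂ)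
      (Q : Type) (_ : Group Q) (_ : Fintype Q) (q : H →* Q) (Zs : Subgroup Q) (νs : Q → ℂ)
      (η : Q → ℂ), Qt K (stab G θ) θ p i τ q Zs νs ∧ η ∈ IrrS (⊤ : Subgroup Q) ∧
      Ql (stab G θ) p τ q ψ η ∧ DefH ℓ ⊤ (lam π η) (Qp ℓ p q (D ⊔ K))

/-- PI: independence of the triple; heights -/
def T_PI : Prop := ∀ (F : Type) [Field F] (π : integralClosure ℤ ℂ →+* F),
  Function.Surjective π → ∀ (ℓ : ℕ) [Fact ℓ.Prime] [CharP F ℓ]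
  (Γ : Type) [Group Γ] [Fintype Γ] (K G D : Subgroup Γ), NIn K G → ∀ θ ∈ IrrS K,
  ∀ χ₀ ∈ IrrS G, DefH ℓ G (lam π χ₀) D → ∀ χ ∈ K0H π ℓ G χ₀ D, ∀ ψ ∈ IrrS (stab G θ),
  Over ψ θ → Over χ ψ → ∀ (U : Subgroup Γ)
  (H : Type) [Group H] [Fintype H] (p : H →* Γ) (i : K →* H) (τ : H → ℂ)
  (Q : Type) [Group Q] [Fintype Q] (q : H →* Q) (Zs : Subgroup Q) (νs : Q → ℂ),
  Qt K U θ p i τ q Zs νs → stab G θ ≤ U →
  ∀ η ∈ IrrS (((stab G θ).comap p).map q), Ql (stab G θ) p τ q ψ η →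
  (∀ P : Subgroup Q, DefH ℓ (((stab G θ).comap p).map q) (lam π η) P →
    η ∈ K0H π ℓ (((stab G θ).comap p).map q) η P ∧
    (∀ d : ℕ, θ 1 = d → padicValNat ℓ d + padicValNat ℓ (Nat.card (D ⊓ K : Subgroup Γ)) =
        padicValNat ℓ (Nat.card K)) ∧
    ∃ g ∈ G, D.map (MulAut.conj g).toMonoidHom ≤ stab G θ ∧
      P = Qp ℓ p q (D.map (MulAut.conj g).toMonoidHom ⊔ K)) ∧
  (U = stab G θ → D ≤ stab G θ → (Ad π ℓ K G D χ θ ↔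
    DefH ℓ (((stab G θ).comap p).map q) (lam π η) (Qp ℓ p q (D ⊔ K))))

/-- PO: the adapted constituents form one orbit -/
def T_PO : Prop := ∀ (F : Type) [Field F] (π : integralClosure ℤ ℂ →+* F),
  Function.Surjective π → ∀ (ℓ : ℕ) [Fact ℓ.Prime] [CharP F ℓ]
  (Γ : Type) [Group Γ] [Fintype Γ] (K G D : Subgroup Γ), NIn K G →
  ∀ χ₀ ∈ IrrS G, DefH ℓ G (lam π χ₀) D → ∀ χ ∈ K0H π ℓ G χ₀ D,
  ∃ θ ∈ IrrS K, Over χ θ ∧ Ad π ℓ K G D χ θ ∧ ∀ θ' ∈ IrrS K,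
    (Over χ θ' ∧ Ad π ℓ K G D χ θ' ↔
      ∃ m ∈ G ⊓ Subgroup.normalizer ((D ⊔ K : Subgroup Γ) : Set Γ), θ' = cj m θ)

/-- PN: the numbers of characters above a given `θ` -/
def T_PN : Prop := ∀ (F : Type) [Field F] (π : integralClosure ℤ ℂ →+* F),
  Function.Surjective π → ∀ (ℓ : ℕ) [Fact ℓ.Prime] [CharP F ℓ]
  (𝓓 : (D : Type) → [Group D] → Prop) (n : ℕ) (Γ : Type) [Group Γ] [Fintype Γ]
  (G K D Z : Subgroup Γ) (ν χ χM : Γ → ℂ), AMn π ℓ 𝓓 n → Cl ℓ 𝓓 → 𝓓 D →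
  NIn K G → Cen G Z ν → Z ≤ K → K.relIndex G ≤ n → χ ∈ IrrS G → DefH ℓ G (lam π χ) D →
  χM ∈ IrrS (G ⊓ Subgroup.normalizer ((D ⊔ K : Subgroup Γ) : Set Γ)) →
  DefH ℓ (G ⊓ Subgroup.normalizer ((D ⊔ K : Subgroup Γ) : Set Γ)) (lam π χM) D →
  (∀ z ∈ ZA F G G, lam π χ z =
    lam π χM (cst (G ⊓ Subgroup.normalizer ((D ⊔ K : Subgroup Γ) : Set Γ)) 1 z)) →
  ∀ θ ∈ IrrS K,
  {χ' | χ' ∈ K0N π ℓ G χ D Z ν ∧ Over χ' θ ∧ Ad π ℓ K G D χ' θ}.ncard =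
    {χ' | χ' ∈ K0N π ℓ (G ⊓ Subgroup.normalizer ((D ⊔ K : Subgroup Γ) : Set Γ)) χM D Z ν ∧
      Over χ' θ}.ncard

/-- PB: the relative step -/
def T_PB : Prop := ∀ (F : Type) [Field F] (π : integralClosure ℤ ℂ →+* F),
  Function.Surjective π → ∀ (ℓ : ℕ) [Fact ℓ.Prime] [CharP F ℓ]
  (𝓓 : (D : Type) → [Group D] → Prop) (n : ℕ) (Γ : Type) [Group Γ] [Fintype Γ]
  (G K D Z : Subgroup Γ) (ν χ χM : Γ → ℂ), AMn π ℓ 𝓓 n → Cl ℓ 𝓓 → 𝓓 D →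
  NIn K G → Cen G Z ν → Z ≤ K → K.relIndex G ≤ n → χ ∈ IrrS G → DefH ℓ G (lam π χ) D →
  χM ∈ IrrS (G ⊓ Subgroup.normalizer ((D ⊔ K : Subgroup Γ) : Set Γ)) →
  DefH ℓ (G ⊓ Subgroup.normalizer ((D ⊔ K : Subgroup Γ) : Set Γ)) (lam π χM) D →
  (∀ z ∈ ZA F G G, lam π χ z =
    lam π χM (cst (G ⊓ Subgroup.normalizer ((D ⊔ K : Subgroup Γ) : Set Γ)) 1 z)) →
  (K0N π ℓ G χ D Z ν).ncard =
    (K0N π ℓ (G ⊓ Subgroup.normalizer ((D ⊔ K : Subgroup Γ) : Set Γ)) χM D Z ν).ncard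

/-- PC: we may assume that `D K` is normal -/
def T_PC : Prop := ∀ (F : Type) [Field F] (π : integralClosure ℤ ℂ →+* F),
  Function.Surjective π → ∀ (ℓ : ℕ) [Fact ℓ.Prime] [CharP F ℓ]
  (𝓓 : (D : Type) → [Group D] → Prop) (n : ℕ) (Γ : Type) [Group Γ] [Fintype Γ]
  (G K D Z : Subgroup Γ) (ν χ ψ : Γ → ℂ), AMn π ℓ 𝓓 n → Cl ℓ 𝓓 → 𝓓 D →
  NIn K G → Cen G Z ν → Z ≤ K → Z ≠ K → Z.relIndex G ≤ n + 1 → χ ∈ IrrS G →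
  DefH ℓ G (lam π χ) D →
  ψ ∈ IrrS (G ⊓ Subgroup.normalizer (D : Set Γ)) → Cor π G D χ ψ → ¬ NIn (D ⊔ K) G →
  (K0N π ℓ G χ D Z ν).ncard =
    (K0N π ℓ (G ⊓ Subgroup.normalizer (D : Set Γ)) ψ D Z ν).ncard

end AMt
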